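import Pool.Agent.MP_f0a921_al.Vec

/-! Bead sets (abacus): Murnaghan-Nakayama recursion, shift, conjugation. -/

namespace Pool.Agent.MP_f0a921_al
open Finset Function

variable {n : ℕ}

noncomputable def T (h : Finset ℕ → ℤ) (μ : Multiset ℕ) (X : Finset ℕ) : ℤ :=
  FU (toV h) μ (X.orderEmbOfFin rfl)

noncomputable def chi (μ : Multiset ℕ) (X : Finset ℕ) : ℤ := T vac μ X

theorem T_eq (h : Finset ℕ → ℤ) (μ : Multiset ℕ) (X : Finset ℕ) (hX : X.card = n) :
    T h μ X = FU (toV h) μ (X.orderEmbOfFin hX) := by subst hX; rfl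

theorem image_emb (X : Finset ℕ) (hX : X.card = n) : image (X.orderEmbOfFin hX) univ = X := by
  apply coe_injective
  rw [coe_image, coe_univ, Set.image_univ, range_orderEmbOfFin]

theorem FU_toV (h : Finset ℕ → ℤ) (μ : Multiset ℕ) (β : Fin n → ℕ) :
    FU (toV h) μ β = toV (T h μ) β := by
  by_cases hinj : Injective β
  swap
  · rw [((toV_anti h).FU μ).zero hinj, (toV_anti _).zero hinj]
  have hX : (image β univ).card = n := by
    rw [card_image_of_injective _ hinj, card_univ, Fintype.card_fin]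
  set γ := (image β univ).orderEmbOfFin hX with hγ
  have hex : ∀ i, ∃ j, γ j = β i := by
    intro i
    have : β i ∈ image γ univ := by
      rw [hγ, image_emb]; exact mem_image_of_mem _ (mem_univ i)
    obtain ⟨j, -, hj⟩ := mem_image.mp this
    exact ⟨j, hj⟩
  choose φ hφ using hex
  have hφi : Injective φ := fun i j hij => hinj (by rw [← hφ, ← hφ, hij])
  have e : β = γ ∘ Equiv.ofBijective φ hφi.bijective_of_finite := funext fun i => (hφ i).symm
  unfold toV
  rw [T_eq h μ _ hX, ← hγ]
  conv_lhs => rw [e]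
  conv_rhs => enter [1]; rw [e]
  rw [sg_anti, sg_mono γ.strictMono, mul_one]
  exact (toV_anti h).FU μ _ _

@[simp] theorem T_zero (h : Finset ℕ → ℤ) (X : Finset ℕ) : T h 0 X = h X := by
  unfold T toV
  rw [FU_zero, sg_mono (X.orderEmbOfFin rfl).strictMono, image_emb, one_mul]

def ee (c : ℕ) (Y : Finset ℕ) : ℤ := ∏ y ∈ Y, Int.sign ((y : ℤ) - c)

theorem sg_cons (c : ℕ) (γ : Fin n → ℕ) :
    sg (Fin.cons c γ : Fin (n + 1) → ℕ) = (∏ j, Int.sign ((γ j : ℤ) - c)) * sg γ := by
  unfold sg
  rw [Fin.prod_univ_succ, Fin.prod_Ioi_zero]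
  simp only [Fin.prod_Ioi_succ, Fin.cons_zero, Fin.cons_succ]

theorem sg_update {β : Fin n → ℕ} (hβ : Injective β) (i : Fin n) (v : ℕ) :
    sg (update β i v) = sg β * (ee (β i) ((image β univ).erase (β i)) *
      ee v ((image β univ).erase (β i))) := by
  obtain ⟨m, rfl⟩ : ∃ m, n = m + 1 := ⟨n - 1, by have := i.2; omega⟩
  have hE : ∀ c : ℕ, ee c ((image β univ).erase (β i)) =
      ∏ j, Int.sign ((β (i.succAbove j) : ℤ) - c) := by
    intro c
    have : (image β univ).erase (β i) = image (fun j => β (i.succAbove j)) univ := by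
      ext x
      simp only [mem_erase, mem_image, mem_univ, true_and]
      constructor
      · rintro ⟨hx, j, rfl⟩
        obtain ⟨k, rfl⟩ := Fin.exists_succAbove_eq (x := j) (y := i) (fun h => hx (by rw [h]))
        exact ⟨k, rfl⟩
      · rintro ⟨j, rfl⟩
        exact ⟨fun h => Fin.succAbove_ne i j (hβ h), _, rfl⟩
    rw [this, ee, prod_image]
    intro j _ k _ h
    exact Fin.succAbove_right_injective (hβ h)
  have h1 : ∀ w : ℕ, update β i w ∘ (Fin.cycleRange i).symm =
      Fin.cons w (fun j => β (i.succAbove j)) := by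
    intro w
    funext j
    refine Fin.cases ?_ (fun k => ?_) j
    · simp [Fin.cycleRange_symm_zero]
    · simp [Fin.cycleRange_symm_succ]
  have h2 := sg_anti (Fin.cycleRange i).symm (update β i v)
  have h3 := sg_anti (Fin.cycleRange i).symm (update β i (β i))
  rw [h1, sg_cons, ← hE] at h2 h3
  rw [update_eq_self] at h3
  have h4 : ((Equiv.Perm.sign (Fin.cycleRange i).symm : ℤˣ) : ℤ) *
      (Equiv.Perm.sign (Fin.cycleRange i).symm : ℤˣ) = 1 := by
    rw [← Units.val_mul, Int.units_mul_self]; rfl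
  have h5 : ee (β i) ((image β univ).erase (β i)) * ee (β i) ((image β univ).erase (β i)) = 1 := by
    unfold ee
    rw [← prod_mul_distrib]
    refine prod_eq_one fun y hy => ?_
    have := ne_of_mem_erase hy
    rcases lt_or_gt_of_ne this with h | h
    · rw [Int.sign_eq_neg_one_of_neg (by omega)]; rfl
    · rw [Int.sign_eq_one_of_pos (by omega)]; rfl
  set s := ((Equiv.Perm.sign (Fin.cycleRange i).symm : ℤˣ) : ℤ)
  set A := ee (β i) ((image β univ).erase (β i))
  set B := ee v ((image β univ).erase (β i))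
  set G := sg (fun j => β (i.succAbove j))
  linear_combination (-s) * h2 + (s * A * B) * h3 - (sg (update β i v)) * h4 +
    (sg β * A * B) * h4 - (s * B * G) * h5

def mv (X : Finset ℕ) (b r : ℕ) : Finset ℕ := insert (b - r) (X.erase b)

def sn (X : Finset ℕ) (b r : ℕ) : ℤ := (-1) ^ (X.filter fun y => b - r < y ∧ y < b).card

def Ub (r : ℕ) (h : Finset ℕ → ℤ) (X : Finset ℕ) : ℤ :=
  ∑ b ∈ X, if r ≤ b ∧ b - r ∉ X then sn X b r * h (mv X b r) else 0

theorem ee_mul (X : Finset ℕ) {b r : ℕ} (hr : 0 < r) (hb : r ≤ b) :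
    ee b (X.erase b) * ee (b - r) (X.erase b) = if b - r ∉ X then sn X b r else 0 := by
  unfold ee
  rw [← prod_mul_distrib]
  split_ifs with h
  · refine prod_eq_zero (i := b - r) (mem_erase.mpr ⟨by omega, h⟩) (by simp)
  · unfold sn
    rw [← prod_const, prod_filter, ← prod_erase X (a := b) (by simp)]
    refine prod_congr rfl fun y hy => ?_
    have h1 := ne_of_mem_erase hy
    have h2 : y ≠ b - r := fun e => h (e ▸ mem_of_mem_erase hy)
    split_ifs with h3
    · rw [Int.sign_eq_neg_one_of_neg (by omega), Int.sign_eq_one_of_pos (by omega)]; rfl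
    · rcases lt_or_gt_of_ne h1 with h4 | h4
      · rw [Int.sign_eq_neg_one_of_neg (by omega), Int.sign_eq_neg_one_of_neg (by omega)]; rfl
      · rw [Int.sign_eq_one_of_pos (by omega), Int.sign_eq_one_of_pos (by omega)]; rfl

theorem image_update {β : Fin n → ℕ} (hβ : Injective β) (i : Fin n) (v : ℕ) :
    image (update β i v) univ = insert v ((image β univ).erase (β i)) := by
  ext x
  simp only [mem_image, mem_univ, true_and, mem_insert, mem_erase]
  constructor
  · rintro ⟨j, rfl⟩
    by_cases h : j = i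
    · subst h; simp
    · rw [update_of_ne h]; exact Or.inr ⟨fun e => h (hβ e), j, rfl⟩
  · rintro (rfl | ⟨h, j, rfl⟩)
    · exact ⟨i, by simp⟩
    · exact ⟨j, update_of_ne (fun e => h (by rw [e])) _ _⟩

theorem T_cons (h : Finset ℕ → ℤ) {r : ℕ} (hr : 0 < r) (μ : Multiset ℕ) (X : Finset ℕ) :
    T h (r ::ₘ μ) X = Ub r (T h μ) X := by
  have hinj : Injective (X.orderEmbOfFin rfl) := (X.orderEmbOfFin rfl).injective
  unfold Ub
  conv_rhs => enter [1]; rw [← image_emb X rfl]
  rw [sum_image fun i _ j _ e => hinj e, T, FU_cons, U]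
  refine sum_congr rfl fun i _ => ?_
  by_cases hb : r ≤ X.orderEmbOfFin rfl i
  · rw [if_pos hb, FU_toV, toV, sg_update hinj, image_update hinj, image_emb, ee_mul X hr hb,
      sg_mono (X.orderEmbOfFin rfl).strictMono, one_mul]
    by_cases h2 : X.orderEmbOfFin rfl i - r ∉ X
    · rw [if_pos h2, if_pos ⟨hb, h2⟩]; rfl
    · rw [if_neg h2, if_neg fun h => h2 h.2, zero_mul]
  · rw [if_neg hb, if_neg fun h => hb h.1]

@[simp] theorem chi_zero (X : Finset ℕ) : chi 0 X = vac X := T_zero _ _

theorem chi_cons {r : ℕ} (hr : 0 < r) (μ : Multiset ℕ) (X : Finset ℕ) :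
    chi (r ::ₘ μ) X = Ub r (chi μ) X := T_cons _ hr _ _

theorem Psi_eq_chi (μ : Multiset ℕ) (β : Fin n → ℕ) :
    Psi n μ β = sg β * chi μ (image β univ) := FU_toV _ _ _

theorem card_mv {X : Finset ℕ} {b r : ℕ} (hb : b ∈ X) (h : b - r ∉ X) :
    (mv X b r).card = X.card := by
  unfold mv
  rw [card_insert_of_notMem fun h' => h (mem_of_mem_erase h'), card_erase_add_one hb]

theorem sum_mv {X : Finset ℕ} {b r : ℕ} (hb : b ∈ X) (hr : r ≤ b) (h : b - r ∉ X) :
    ∑ x ∈ mv X b r, x + r = ∑ x ∈ X, x := by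
  unfold mv
  rw [sum_insert fun h' => h (mem_of_mem_erase h'), ← add_sum_erase X (fun x => x) hb]
  omega

theorem mem_mv {X : Finset ℕ} {b r x : ℕ} : x ∈ mv X b r ↔ x = b - r ∨ (x ≠ b ∧ x ∈ X) := by
  simp [mv]

/-- `X` is the bead set of a partition of `d` -/
def Wt (X : Finset ℕ) (d : ℕ) : Prop := ∑ x ∈ X, x = X.card.choose 2 + d

theorem Wt.unique {X : Finset ℕ} {d e : ℕ} (h : Wt X d) (h' : Wt X e) : d = e := by
  unfold Wt at h h'; omega

theorem Wt.of_mv {X : Finset ℕ} {b r s : ℕ} (hb : b ∈ X) (hr : r ≤ b) (h : b - r ∉ X)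
    (hw : Wt (mv X b r) s) : Wt X (r + s) := by
  unfold Wt at *
  rw [card_mv hb h] at hw
  have := sum_mv hb hr h
  omega

theorem exists_Wt (X : Finset ℕ) : ∃ d, Wt X d := by
  have : X.card.choose 2 ≤ ∑ x ∈ X, x := by
    induction X using Finset.induction_on_max with
    | empty => simp
    | insert B X hB ih =>
      have h1 : B ∉ X := fun h => lt_irrefl _ (hB B h)
      have h2 : X.card ≤ B := by
        have := card_le_card (s := X) (t := range B) fun x hx => mem_range.mpr (hB x hx)
        rwa [card_range] at this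
      rw [sum_insert h1, card_insert_of_notMem h1, Nat.choose_succ_succ', Nat.choose_one_right]
      exact add_le_add h2 ih
  exact ⟨∑ x ∈ X, x - X.card.choose 2, by unfold Wt; omega⟩

theorem Wt.mv {X : Finset ℕ} {b r d : ℕ} (hw : Wt X d) (hb : b ∈ X) (hr : r ≤ b)
    (h : b - r ∉ X) : r ≤ d ∧ Wt (mv X b r) (d - r) := by
  obtain ⟨s, hs⟩ := exists_Wt (MP_f0a921_al.mv X b r)
  have := (Wt.of_mv hb hr h hs).unique hw
  subst this
  exact ⟨by omega, by rwa [Nat.add_sub_cancel_left]⟩

theorem T_supp (P : ℕ → Finset ℕ → Prop) (h : Finset ℕ → ℤ) (h0 : ∀ Y, h Y ≠ 0 → P 0 Y)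
    (hs : ∀ X b r s, b ∈ X → r ≤ b → b - r ∉ X → P s (mv X b r) → P (r + s) X)
    (μ : Multiset ℕ) (hμ : ∀ r ∈ μ, 0 < r) (X : Finset ℕ) (hX : T h μ X ≠ 0) : P μ.sum X := by
  induction μ using Multiset.induction_on generalizing X with
  | empty => exact h0 X (by simpa using hX)
  | cons r μ ih =>
    rw [T_cons _ (hμ r (Multiset.mem_cons_self _ _))] at hX
    obtain ⟨b, hb, hne⟩ := exists_ne_zero_of_sum_ne_zero hX
    split_ifs at hne with hc
    · rw [Multiset.sum_cons]
      exact hs X b r _ hb hc.1 hc.2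
        (ih (fun x hx => hμ x (Multiset.mem_cons_of_mem hx)) _ (right_ne_zero_of_mul hne))
    · exact absurd rfl hne

theorem Wt_range (m : ℕ) : Wt (range m) 0 := by
  unfold Wt; rw [card_range, sum_range_id, Nat.choose_two_right]; rfl

theorem chi_supp {μ : Multiset ℕ} (hμ : ∀ r ∈ μ, 0 < r) {X : Finset ℕ} (hX : chi μ X ≠ 0) :
    Wt X μ.sum := by
  refine T_supp (fun s X => Wt X s) vac ?_ (fun X b r s hb hr h hw => Wt.of_mv hb hr h hw) μ hμ X hX
  intro Y hY
  unfold vac at hY
  split_ifs at hY with h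
  · rw [h]; exact Wt_range _
  · exact absurd rfl hY

/-! ### shift -/

def sh (X : Finset ℕ) : Finset ℕ := insert 0 (X.image (· + 1))

theorem mem_sh {X : Finset ℕ} {x : ℕ} : x ∈ sh X ↔ x = 0 ∨ (0 < x ∧ x - 1 ∈ X) := by
  unfold sh
  simp only [mem_insert, mem_image]
  constructor
  · rintro (h | ⟨a, ha, rfl⟩)
    · exact Or.inl h
    · exact Or.inr ⟨by omega, by simpa⟩
  · rintro (h | ⟨h1, h2⟩)
    · exact Or.inl h
    · exact Or.inr ⟨x - 1, h2, by omega⟩

theorem sum_sh {M : Type*} [AddCommMonoid M] (X : Finset ℕ) (F : ℕ → M) :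
    ∑ x ∈ sh X, F x = F 0 + ∑ x ∈ X, F (x + 1) := by
  unfold sh
  rw [sum_insert (by simp), sum_image (by simp)]

theorem card_sh (X : Finset ℕ) : (sh X).card = X.card + 1 := by
  rw [card_eq_sum_ones, sum_sh, card_eq_sum_ones, add_comm]

theorem Wt_sh {X : Finset ℕ} {d : ℕ} : Wt (sh X) d ↔ Wt X d := by
  unfold Wt
  rw [sum_sh, card_sh, sum_add_distrib, Nat.choose_succ_succ']
  simp only [sum_const, smul_eq_mul, mul_one, Nat.choose_one_right, Nat.reduceAdd]
  omega

theorem vac_sh (X : Finset ℕ) : vac (sh X) = vac X := by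
  unfold vac
  rw [card_sh]
  congr 1
  apply propext
  constructor
  · intro h
    ext x
    have : x + 1 ∈ sh X ↔ x + 1 ∈ range (X.card + 1) := by rw [h]
    simpa [mem_sh] using this
  · intro h
    ext x
    rw [mem_sh, h]; simp; omega

theorem Ub_sh {r : ℕ} (hr : 0 < r) (h : Finset ℕ → ℤ) (X : Finset ℕ) :
    Ub r h (sh X) = Ub r (fun Y => h (sh Y)) X := by
  unfold Ub
  rw [sum_sh, if_neg (by omega), zero_add]
  refine sum_congr rfl fun b hb => ?_
  by_cases hc : r ≤ b ∧ b - r ∉ X
  · rw [if_pos hc, if_pos]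
    · congr 1
      · unfold sn
        congr 1
        symm
        refine card_bij (fun y _ => y + 1) ?_ (by simp) ?_
        · intro y hy
          simp only [mem_filter, mem_sh] at hy ⊢
          exact ⟨Or.inr ⟨by omega, by simpa using hy.1⟩, by omega⟩
        · intro y hy
          simp only [mem_filter, mem_sh] at hy
          refine ⟨y - 1, mem_filter.mpr ⟨?_, by omega⟩, by omega⟩
          rcases hy.1 with h | h
          · omega
          · exact h.2
      · congr 1
        ext x
        simp only [mem_mv, mem_sh]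
        constructor
        · rintro (h | ⟨h1, h | h⟩)
          · exact Or.inr ⟨by omega, Or.inl (by omega)⟩
          · exact Or.inl h
          · exact Or.inr ⟨h.1, Or.inr ⟨by omega, h.2⟩⟩
        · rintro (h | ⟨h1, h | h⟩)
          · exact Or.inr ⟨by omega, Or.inl h⟩
          · exact Or.inl (by omega)
          · exact Or.inr ⟨by omega, Or.inr ⟨h1, h.2⟩⟩
    · refine ⟨by omega, ?_⟩
      rw [mem_sh, show b + 1 - r - 1 = b - r by omega]
      rintro (h | h)
      · omega
      · exact hc.2 h.2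
  · rw [if_neg hc, if_neg]
    rintro ⟨h1, h2⟩
    rw [mem_sh, show b + 1 - r - 1 = b - r by omega] at h2
    apply hc
    refine ⟨by omega, fun h => h2 ?_⟩
    by_cases h0 : b + 1 - r = 0
    · exact Or.inl h0
    · exact Or.inr ⟨by omega, h⟩

theorem chi_sh {μ : Multiset ℕ} (hμ : ∀ r ∈ μ, 0 < r) (X : Finset ℕ) :
    chi μ (sh X) = chi μ X := by
  induction μ using Multiset.induction_on generalizing X with
  | empty => simp [vac_sh]
  | cons r μ ih =>
    have hr := hμ r (Multiset.mem_cons_self _ _)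
    rw [chi_cons hr, chi_cons hr, Ub_sh hr]
    congr 1
    funext Y
    exact ih (fun x hx => hμ x (Multiset.mem_cons_of_mem hx)) Y

/-- first row at most `a`, first column at most `l` -/
def Box (X : Finset ℕ) (a l : ℕ) : Prop :=
  (∀ b ∈ X, b < X.card + a) ∧ ∀ h, h + l < X.card → h ∈ X

theorem Box.mono {X : Finset ℕ} {a l a' l' : ℕ} (h : Box X a l) (ha : a ≤ a') (hl : l ≤ l') :
    Box X a' l' :=
  ⟨fun b hb => by have := h.1 b hb; omega, fun x hx => h.2 x (by omega)⟩

theorem Box.mv {X : Finset ℕ} {a l b r : ℕ} (hB : Box X a l) (hb : b ∈ X) (h : b - r ∉ X) :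
    Box (mv X b r) a l := by
  unfold Box
  rw [card_mv hb h]
  constructor
  · intro x hx
    rcases mem_mv.mp hx with e | e
    · have := hB.1 b hb; omega
    · exact hB.1 x e.2
  · intro x hx
    refine mem_mv.mpr (Or.inr ⟨?_, hB.2 x hx⟩)
    rintro rfl
    exact h (hB.2 _ (by omega))

theorem Box_sh {X : Finset ℕ} {a l : ℕ} : Box (sh X) a l ↔ Box X a l := by
  unfold Box
  rw [card_sh]
  constructor
  · rintro ⟨h1, h2⟩
    refine ⟨fun b hb => ?_, fun x hx => ?_⟩
    · have := h1 (b + 1) (mem_sh.mpr (Or.inr ⟨by omega, by simpa⟩)); omega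
    · simpa [mem_sh] using h2 (x + 1) (by omega)
  · rintro ⟨h1, h2⟩
    refine ⟨fun b hb => ?_, fun x hx => ?_⟩
    · rcases mem_sh.mp hb with h | h
      · omega
      · have := h1 _ h.2; omega
    · by_cases h0 : x = 0
      · exact mem_sh.mpr (Or.inl h0)
      · exact mem_sh.mpr (Or.inr ⟨by omega, h2 _ (by omega)⟩)

theorem exists_sh {X : Finset ℕ} (h : 0 ∈ X) : ∃ Y, X = sh Y := by
  refine ⟨(X.erase 0).image (· - 1), ?_⟩
  ext x
  simp only [mem_sh, mem_image, mem_erase]
  constructor
  · intro hx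
    by_cases h0 : x = 0
    · exact Or.inl h0
    · exact Or.inr ⟨by omega, x, ⟨h0, hx⟩, rfl⟩
  · rintro (rfl | ⟨h1, y, ⟨h2, h3⟩, h4⟩)
    · exact h
    · rwa [show x = y by omega]

/-- same partition -/
def Sim (X Y : Finset ℕ) : Prop :=
  (∀ μ : Multiset ℕ, (∀ r ∈ μ, 0 < r) → chi μ X = chi μ Y) ∧ (∀ d, Wt X d ↔ Wt Y d) ∧
    ∀ a l, Box X a l ↔ Box Y a l

theorem Sim.trans {X Y Z : Finset ℕ} (h : Sim X Y) (h' : Sim Y Z) : Sim X Z :=
  ⟨fun μ hμ => (h.1 μ hμ).trans (h'.1 μ hμ), fun d => (h.2.1 d).trans (h'.2.1 d),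
    fun a l => (h.2.2 a l).trans (h'.2.2 a l)⟩

theorem Sim.symm {X Y : Finset ℕ} (h : Sim X Y) : Sim Y X :=
  ⟨fun μ hμ => (h.1 μ hμ).symm, fun d => (h.2.1 d).symm, fun a l => (h.2.2 a l).symm⟩

theorem Sim.refl (X : Finset ℕ) : Sim X X := ⟨fun _ _ => rfl, fun _ => Iff.rfl, fun _ _ => Iff.rfl⟩

theorem Sim_sh (X : Finset ℕ) : Sim (sh X) X :=
  ⟨fun _ hμ => chi_sh hμ X, fun _ => Wt_sh, fun _ _ => Box_sh⟩

theorem exists_sim {X : Finset ℕ} {a l m : ℕ} (hB : Box X a l) (hm : l ≤ m) :
    ∃ Y, Y.card = m ∧ Sim X Y := by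
  have up : ∀ t, ∃ Y, Y.card = X.card + t ∧ Sim X Y := by
    intro t
    induction t with
    | zero => exact ⟨X, rfl, Sim.refl X⟩
    | succ t ih =>
      obtain ⟨Y, h1, h2⟩ := ih
      exact ⟨sh Y, by rw [card_sh, h1]; rfl, h2.trans (Sim_sh Y).symm⟩
  have down : ∀ t, t + l ≤ X.card → ∃ Y, Y.card + t = X.card ∧ Sim X Y := by
    intro t
    induction t with
    | zero => exact fun _ => ⟨X, rfl, Sim.refl X⟩
    | succ t ih =>
      intro ht
      obtain ⟨Y, h1, h2⟩ := ih (by omega)
      obtain ⟨Z, rfl⟩ := exists_sh (((h2.2.2 a l).mp hB).2 0 (by omega))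
      rw [card_sh] at h1
      exact ⟨Z, by omega, h2.trans (Sim_sh Z)⟩
  rcases le_total X.card m with h | h
  · obtain ⟨Y, h1, h2⟩ := up (m - X.card)
    exact ⟨Y, by omega, h2⟩
  · obtain ⟨Y, h1, h2⟩ := down (X.card - m) (by omega)
    exact ⟨Y, by omega, h2⟩

theorem exists_box (X : Finset ℕ) : ∃ a, Box X a X.card :=
  ⟨X.sup id + 1, fun b hb => by have := le_sup (f := id) hb; simp only [id] at this; omega,
    fun _ h => by omega⟩

/-! ### conjugation -/

def cj (N : ℕ) (X : Finset ℕ) : Finset ℕ := (range N).filter fun x => N - 1 - x ∉ X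

theorem mem_cj {N : ℕ} {X : Finset ℕ} {x : ℕ} : x ∈ cj N X ↔ x < N ∧ N - 1 - x ∉ X := by
  simp [cj]

theorem card_cj {N : ℕ} {X : Finset ℕ} (hX : ∀ x ∈ X, x < N) : (cj N X).card + X.card = N := by
  have h1 : ((range N).filter fun x => ¬ N - 1 - x ∉ X).card = X.card := by
    refine card_bij (fun x _ => N - 1 - x) ?_ ?_ ?_
    · intro x hx; simpa using (mem_filter.mp hx).2
    · intro x hx y hy h
      have := mem_range.mp (mem_filter.mp hx).1
      have := mem_range.mp (mem_filter.mp hy).1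
      omega
    · intro y hy
      have := hX y hy
      refine ⟨N - 1 - y, mem_filter.mpr ⟨mem_range.mpr (by omega), ?_⟩, by omega⟩
      rw [show N - 1 - (N - 1 - y) = y by omega]; simpa
  rw [← h1, cj, card_filter_add_card_filter_not, card_range]

theorem cj_cj {N : ℕ} {X : Finset ℕ} (hX : ∀ x ∈ X, x < N) : cj N (cj N X) = X := by
  ext x
  simp only [mem_cj]
  constructor
  · rintro ⟨h1, h2⟩
    by_contra h
    exact h2 ⟨by omega, by rwa [show N - 1 - (N - 1 - x) = x by omega]⟩
  · intro h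
    have := hX x h
    exact ⟨this, fun h' => h'.2 (by rwa [show N - 1 - (N - 1 - x) = x by omega])⟩

theorem Box.cj {N : ℕ} {X : Finset ℕ} (hX : ∀ x ∈ X, x < N) {a l : ℕ} (hB : Box X a l) :
    Box (cj N X) l a := by
  have := card_cj hX
  constructor
  · intro x hx
    rw [mem_cj] at hx
    by_contra h
    exact hx.2 (hB.2 _ (by omega))
  · intro x hx
    refine mem_cj.mpr ⟨by omega, fun h => ?_⟩
    have := hB.1 _ h
    omega

open Classical in
theorem vac_eq_one {X : Finset ℕ} : vac X = if Box X 0 0 then 1 else 0 := by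
  unfold vac
  congr 1
  apply propext
  constructor
  · intro h
    exact ⟨fun b hb => by rw [h] at hb; simpa using hb, fun x hx => by rw [h]; simpa using hx⟩
  · intro h
    ext x
    exact ⟨fun hx => by simpa using h.1 x hx, fun hx => h.2 x (by simpa using hx)⟩

def sm (μ : Multiset ℕ) : ℤ := (μ.map fun r => (-1 : ℤ) ^ (r + 1)).prod

theorem chi_cj (N : ℕ) {μ : Multiset ℕ} (hμ : ∀ r ∈ μ, 0 < r) {X : Finset ℕ}
    (hX : ∀ x ∈ X, x < N) : chi μ (cj N X) = sm μ * chi μ X := by
  induction μ using Multiset.induction_on generalizing X with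
  | empty =>
    classical
    simp only [chi_zero, sm, Multiset.map_zero, Multiset.prod_zero, one_mul, vac_eq_one]
    congr 1
    apply propext
    refine ⟨fun h => ?_, fun h => h.cj hX⟩
    have := h.cj (N := N) (fun x hx => (mem_cj.mp hx).1)
    rwa [cj_cj hX] at this
  | cons r μ ih =>
    have hr := hμ r (Multiset.mem_cons_self _ _)
    have ih' := fun {Y : Finset ℕ} (hY : ∀ x ∈ Y, x < N) =>
      ih (fun x hx => hμ x (Multiset.mem_cons_of_mem hx)) hY
    rw [chi_cons hr, chi_cons hr]
    unfold Ub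
    rw [← sum_filter, ← sum_filter, mul_sum]
    symm
    refine sum_nbij' (fun b => N - 1 + r - b) (fun b => N - 1 + r - b) ?_ ?_ ?_ ?_ ?_
    · intro b hb
      simp only [mem_filter, mem_cj] at hb ⊢
      have := hX b hb.1
      refine ⟨⟨by omega, ?_⟩, by omega, fun h => h.2 ?_⟩
      · rw [show N - 1 - (N - 1 + r - b) = b - r by omega]; exact hb.2.2
      · rw [show N - 1 - (N - 1 + r - b - r) = b by omega]; exact hb.1
    · intro b hb
      simp only [mem_filter, mem_cj] at hb ⊢
      refine ⟨?_, by omega, ?_⟩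
      · by_contra h
        exact hb.2.2 ⟨by omega, by rwa [show N - 1 - (b - r) = N - 1 + r - b by omega]⟩
      · rw [show N - 1 + r - b - r = N - 1 - b by omega]; exact hb.1.2
    · intro b hb
      have := hX b (mem_filter.mp hb).1
      omega
    · intro b hb
      have := (mem_cj.mp (mem_filter.mp hb).1).1
      omega
    · intro b hb
      obtain ⟨hb, h1, h2⟩ := mem_filter.mp hb
      have hbN := hX b hb
      have e1 : mv (cj N X) (N - 1 + r - b) r = cj N (mv X b r) := by
        ext x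
        simp only [mem_mv, mem_cj]
        constructor
        · rintro (h | ⟨h, h', h''⟩)
          · refine ⟨by omega, ?_⟩
            rintro (e | e) <;> omega
          · refine ⟨h', ?_⟩
            rintro (e | e)
            · omega
            · exact h'' e.2
        · rintro ⟨h, h'⟩
          by_cases e : N - 1 - x = b
          · exact Or.inl (by omega)
          · exact Or.inr ⟨fun e' => h' (Or.inl (by omega)), h, fun e' => h' (Or.inr ⟨e, e'⟩)⟩
      have e2 : ((cj N X).filter fun y => N - 1 + r - b - r < y ∧ y < N - 1 + r - b).card +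
          (X.filter fun y => b - r < y ∧ y < b).card + 1 = r := by
        have a1 : ((cj N X).filter fun y => N - 1 + r - b - r < y ∧ y < N - 1 + r - b).card =
            ((Ioo (b - r) b).filter fun y => ¬ y ∈ X).card := by
          refine card_bij (fun x _ => N - 1 - x) ?_ ?_ ?_
          · intro x hx
            simp only [mem_filter, mem_cj, mem_Ioo] at hx ⊢
            exact ⟨by omega, hx.1.2⟩
          · intro x hx y hy h
            simp only [mem_filter, mem_cj] at hx hy
            omega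
          · intro y hy
            simp only [mem_filter, mem_Ioo] at hy
            refine ⟨N - 1 - y, ?_, by omega⟩
            simp only [mem_filter, mem_cj]
            refine ⟨⟨by omega, ?_⟩, by omega⟩
            rw [show N - 1 - (N - 1 - y) = y by omega]; exact hy.2
        have a2 : (X.filter fun y => b - r < y ∧ y < b) = (Ioo (b - r) b).filter fun y => y ∈ X := by
          ext y; simp [and_comm]
        have a3 := card_filter_add_card_filter_not (s := Ioo (b - r) b) (fun y => y ∈ X)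
        rw [Nat.card_Ioo] at a3
        rw [a1, a2]; omega
      rw [e1, ih' (fun x hx => by
        rcases mem_mv.mp hx with h | h
        · omega
        · exact hX x h.2)]
      unfold sn sm
      rw [Multiset.map_cons, Multiset.prod_cons]
      set A := ((cj N X).filter fun y => N - 1 + r - b - r < y ∧ y < N - 1 + r - b).card
      set C := (X.filter fun y => b - r < y ∧ y < b).card
      have : (-1 : ℤ) ^ (r + 1) * (-1) ^ C = (-1) ^ A := by
        rw [← e2, ← pow_add, show A + C + 1 + 1 + C = A + 2 * (C + 1) by ring, pow_add, pow_mul]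
        simp
      rw [← this]; ring

theorem sm_sq (μ : Multiset ℕ) : sm μ = 1 ∨ sm μ = -1 := by
  induction μ using Multiset.induction_on with
  | empty => simp [sm]
  | cons r μ ih =>
    unfold sm at *
    rw [Multiset.map_cons, Multiset.prod_cons]
    rcases neg_one_pow_eq_or ℤ (r + 1) with h | h <;> rcases ih with h' | h' <;> simp [h, h']

theorem sm_ones (d : ℕ) : sm (Multiset.replicate d 1) = 1 := by simp [sm]

/-! ### centraliser bound -/

theorem chi_sq_le {μ : Multiset ℕ} (hμ : ∀ r ∈ μ, 0 < r) (X : Finset ℕ) :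
    chi μ X * chi μ X ≤ zz μ := by
  obtain ⟨a, ha⟩ := exists_box X
  obtain ⟨Y, hY, hs⟩ := exists_sim ha (m := X.card + μ.sum) (by omega)
  rw [hs.1 μ hμ]
  by_cases h0 : chi μ Y = 0
  · rw [h0]; simp
  have hw := chi_supp hμ h0
  set m := X.card + μ.sum
  have o := orth (n := m) μ μ hμ hμ rfl (by omega)
  rw [if_pos rfl] at o
  set γ := Y.orderEmbOfFin hY
  have hsum : ∑ i, γ i = m.choose 2 + μ.sum := by
    unfold Wt at hw
    rw [hY] at hw
    rw [← hw]
    conv_rhs => rw [← image_emb Y hY]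
    rw [sum_image fun i _ j _ e => γ.injective e]
  set O := univ.image (fun τ : Equiv.Perm (Fin m) => γ ∘ τ) with hO
  have hsub : O ⊆ Finset.Nat.antidiagonalTuple m (m.choose 2 + μ.sum) := by
    intro β hβ
    obtain ⟨τ, -, rfl⟩ := mem_image.mp hβ
    rw [Finset.Nat.mem_antidiagonalTuple, ← hsum]
    exact Equiv.sum_comp τ γ
  have h1 := sum_le_sum_of_subset_of_nonneg hsub
    (f := fun β => Psi m μ β * Psi m μ β) (fun _ _ _ => mul_self_nonneg _)
  rw [o, hO, sum_image] at h1
  · have : ∀ τ : Equiv.Perm (Fin m), Psi m μ (γ ∘ τ) * Psi m μ (γ ∘ τ) = chi μ Y * chi μ Y := by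
      intro τ
      rw [Psi_anti, Psi_eq_chi, sg_mono γ.strictMono, image_emb]
      have : (Equiv.Perm.sign τ : ℤ) * (Equiv.Perm.sign τ : ℤ) = 1 := by
        rw [← Units.val_mul, Int.units_mul_self]; rfl
      linear_combination (chi μ Y * chi μ Y) * this
    simp only [this, sum_const, card_univ, Fintype.card_perm, Fintype.card_fin, nsmul_eq_mul] at h1
    have hp : (0 : ℤ) < m.factorial := by exact_mod_cast m.factorial_pos
    nlinarith
  · intro τ _ τ' _ h
    ext i
    exact congrArg Fin.val (γ.injective (congrFun h i))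

end Pool.Agent.MP_f0a921_al
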