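import Pool.Agent.MP_f0a921_al.Bead

/-! Dimensions: domination of characters, hook formula, row decomposition. -/

namespace Pool.Agent.MP_f0a921_al
open Finset Function

variable {n : ℕ}

noncomputable def dm (d : ℕ) (X : Finset ℕ) : ℤ := chi (Multiset.replicate d 1) X

theorem ones_pos (d : ℕ) : ∀ r ∈ Multiset.replicate d 1, 0 < r := fun r hr => by
  rw [Multiset.eq_of_mem_replicate hr]; exact one_pos

theorem sn_one (X : Finset ℕ) (b : ℕ) : sn X b 1 = 1 := by
  unfold sn
  rw [filter_eq_empty_iff.mpr (fun y _ => by omega)]; rfl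

theorem Ub_one (h : Finset ℕ → ℤ) (X : Finset ℕ) :
    Ub 1 h X = ∑ b ∈ X, if 1 ≤ b ∧ b - 1 ∉ X then h (mv X b 1) else 0 := by
  unfold Ub; simp only [sn_one, one_mul]

theorem iter_eq (h : Finset ℕ → ℤ) (m : ℕ) : (Ub 1)^[m] h = T h (Multiset.replicate m 1) := by
  induction m with
  | zero => funext X; simp
  | succ m ih =>
    funext X
    rw [iterate_succ_apply', ih, Multiset.replicate_succ, T_cons _ one_pos]

theorem iter_vac (m : ℕ) : (Ub 1)^[m] vac = dm m := iter_eq _ _

inductive Reach : ℕ → Finset ℕ → Finset ℕ → Prop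
  | refl (X : Finset ℕ) : Reach 0 X X
  | step {r b : ℕ} {X Y : Finset ℕ} : b ∈ X → 1 ≤ b → b - 1 ∉ X → Reach r (mv X b 1) Y →
      Reach (r + 1) X Y

theorem Reach.append {r b : ℕ} {X Z : Finset ℕ} (h : Reach r X Z) (hb : b ∈ Z) (h1 : 1 ≤ b)
    (h2 : b - 1 ∉ Z) : Reach (r + 1) X (mv Z b 1) := by
  induction h with
  | refl X => exact Reach.step hb h1 h2 (Reach.refl _)
  | step a1 a2 a3 _ ih => exact Reach.step a1 a2 a3 (ih hb h2)

theorem reach_mv {r b : ℕ} {X : Finset ℕ} (hb : b ∈ X) (h1 : r + 1 ≤ b) (h2 : b - (r + 1) ∉ X) :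
    Reach (r + 1) X (mv X b (r + 1)) := by
  induction r generalizing X with
  | zero => exact Reach.step hb h1 h2 (Reach.refl _)
  | succ r ih =>
    have e : b - (r + 1) - 1 = b - (r + 1 + 1) := by omega
    by_cases hm : b - (r + 1) ∈ X
    · refine Reach.step hm (by omega) (e ▸ h2) ?_
      have := ih (X := mv X (b - (r + 1)) 1) (mem_mv.mpr (Or.inr ⟨by omega, hb⟩)) (by omega)
        (by rw [mem_mv]; rintro (h | h) <;> omega)
      convert this using 1
      ext x
      simp only [mem_mv]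
      constructor
      · rintro (h | h)
        · exact Or.inr ⟨by omega, Or.inl (by omega)⟩
        · by_cases hx : x = b - (r + 1)
          · exact Or.inl hx
          · exact Or.inr ⟨h.1, Or.inr ⟨hx, h.2⟩⟩
      · rintro (h | ⟨h, h' | h'⟩)
        · exact Or.inr ⟨by omega, h ▸ hm⟩
        · exact Or.inl (by omega)
        · exact Or.inr ⟨h, h'.2⟩
    · have := (ih hb (by omega) hm).append (b := b - (r + 1)) (mem_mv.mpr (Or.inl rfl)) (by omega)
        (by rw [mem_mv, e]; rintro (h | h); omega; exact h2 h.2)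
      convert this using 1
      ext x
      simp only [mem_mv]
      constructor
      · rintro (h | h)
        · exact Or.inl (by omega)
        · exact Or.inr ⟨fun e => hm (e ▸ h.2), Or.inr h⟩
      · rintro (h | ⟨h, h' | h'⟩)
        · exact Or.inl (by omega)
        · exact absurd h' h
        · exact Or.inr h'

theorem sum_le_iter {h : Finset ℕ → ℤ} (h0 : ∀ Y, 0 ≤ h Y) (r : ℕ) (X : Finset ℕ)
    (S : Finset (Finset ℕ)) (hS : ∀ Y ∈ S, Reach r X Y) : ∑ Y ∈ S, h Y ≤ (Ub 1)^[r] h X := by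
  induction r generalizing X S with
  | zero =>
    have : S ⊆ {X} := fun Y hY => by
      have := hS Y hY
      cases this
      exact mem_singleton_self _
    simpa using sum_le_sum_of_subset_of_nonneg this (f := h) (fun _ _ _ => h0 _)
  | succ r ih =>
    have : ∀ Y ∈ S, ∃ b, b ∈ X ∧ (1 ≤ b ∧ b - 1 ∉ X) ∧ Reach r (mv X b 1) Y := by
      intro Y hY
      have := hS Y hY
      cases this with
      | step a1 a2 a3 a4 => exact ⟨_, a1, ⟨a2, a3⟩, a4⟩
    choose! φ hφ using this
    rw [iterate_succ_apply', Ub_one, ← sum_fiberwise_of_maps_to (fun Y hY => (hφ Y hY).1)]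
    refine sum_le_sum fun b _ => ?_
    split_ifs with hc
    · refine ih _ _ fun Y hY => ?_
      rw [mem_filter] at hY
      rw [← hY.2]; exact (hφ Y hY.1).2.2
    · rw [filter_eq_empty_iff.mpr, sum_empty]
      intro Y hY e
      exact hc (e ▸ (hφ Y hY).2.1)

theorem abs_sn (X : Finset ℕ) (b r : ℕ) : |sn X b r| = 1 := by simp [sn]

theorem Ub_abs_le {g h : Finset ℕ → ℤ} (hg : ∀ Y, |g Y| ≤ h Y) {r : ℕ} (hr : 0 < r)
    (X : Finset ℕ) : |Ub r g X| ≤ (Ub 1)^[r] h X := by
  unfold Ub
  rw [← sum_filter]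
  refine (abs_sum_le_sum_abs _ _).trans ?_
  simp only [abs_mul, abs_sn, one_mul]
  refine (sum_le_sum fun b _ => hg _).trans ?_
  rw [← sum_image (f := h) (g := fun b => mv X b r)]
  · refine sum_le_iter (fun Y => (abs_nonneg _).trans (hg Y)) _ _ _ fun Y hY => ?_
    obtain ⟨b, hb, rfl⟩ := mem_image.mp hY
    rw [mem_filter] at hb
    obtain ⟨r, rfl⟩ : ∃ s, r = s + 1 := ⟨r - 1, by omega⟩
    exact reach_mv hb.1 hb.2.1 hb.2.2
  · intro b hb b' hb' e
    simp only [coe_filter, Set.mem_ofPred_eq] at hb hb' e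
    have : b - r ∈ mv X b' r := e ▸ mem_mv.mpr (Or.inl rfl)
    rcases mem_mv.mp this with h | h
    · omega
    · exact absurd h.2 hb.2.2

theorem T_abs_le {g h : Finset ℕ → ℤ} (hg : ∀ Y, |g Y| ≤ h Y) {μ : Multiset ℕ}
    (hμ : ∀ r ∈ μ, 0 < r) (X : Finset ℕ) : |T g μ X| ≤ (Ub 1)^[μ.sum] h X := by
  induction μ using Multiset.induction_on generalizing X with
  | empty => simpa using hg X
  | cons r μ ih =>
    have hr := hμ r (Multiset.mem_cons_self _ _)
    rw [T_cons _ hr, Multiset.sum_cons, iterate_add_apply]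
    exact Ub_abs_le (ih fun x hx => hμ x (Multiset.mem_cons_of_mem hx)) hr X

theorem vac_nonneg (X : Finset ℕ) : 0 ≤ vac X := by unfold vac; split_ifs <;> simp

theorem chi_abs_le {μ : Multiset ℕ} (hμ : ∀ r ∈ μ, 0 < r) (X : Finset ℕ) :
    |chi μ X| ≤ dm μ.sum X := by
  rw [← iter_vac]
  exact T_abs_le (fun Y => (abs_of_nonneg (vac_nonneg Y)).le) hμ X

theorem dm_nonneg (d : ℕ) (X : Finset ℕ) : 0 ≤ dm d X := by
  have := chi_abs_le (ones_pos d) X
  rw [Multiset.sum_replicate, smul_eq_mul, mul_one] at this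
  exact (abs_nonneg _).trans this

theorem dm_succ (d : ℕ) (X : Finset ℕ) : dm (d + 1) X = Ub 1 (dm d) X := by
  unfold dm; rw [Multiset.replicate_succ, chi_cons one_pos]

theorem dm_supp {d : ℕ} {X : Finset ℕ} (h : dm d X ≠ 0) : Wt X d := by
  simpa using chi_supp (ones_pos d) h

/-! ### the determinant formula -/

def Wd (β : Fin n → ℕ) : ℤ :=
  ∑ σ : Equiv.Perm (Fin n), (Equiv.Perm.sign σ : ℤ) * ∏ i, ((β i).descFactorial (σ i) : ℤ)

theorem Wd_eq (β : Fin n → ℕ) : Wd β = ∏ i, ∏ j ∈ Ioi i, ((β j : ℤ) - β i) := by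
  rw [← Matrix.det_vandermonde, Matrix.det_eval_matrixOfPolynomials_eq_det_vandermonde _
    (fun j => descPochhammer ℤ j) (fun j => descPochhammer_natDegree ℤ j)
    (fun j => monic_descPochhammer ℤ j), ← Matrix.det_transpose, Matrix.det_apply]
  unfold Wd
  refine sum_congr rfl fun σ _ => ?_
  simp [descPochhammer_eval_eq_descFactorial, Units.smul_def]

theorem desc_step (b s : ℕ) :
    (b : ℤ) * ((b - 1).descFactorial s : ℕ) = ((b : ℤ) - s) * (b.descFactorial s : ℕ) := by
  rcases b with _ | b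
  · rcases s with _ | s <;> simp
  · have h1 := Nat.succ_descFactorial_succ b s
    rw [Nat.descFactorial_succ] at h1
    rcases le_or_gt s (b + 1) with h | h
    · have := congrArg (Nat.cast : ℕ → ℤ) h1
      push_cast [h] at this ⊢
      simpa using this.symm
    · rw [Nat.descFactorial_eq_zero_iff_lt.mpr h,
        Nat.descFactorial_eq_zero_iff_lt.mpr (by omega : b + 1 - 1 < s)]
      simp

theorem Psi_ones (d : ℕ) (β : Fin n → ℕ) (hβ : ∑ i, β i = n.choose 2 + d) :
    Psi n (Multiset.replicate d 1) β * ∏ i, ((β i).factorial : ℤ) = d.factorial * Wd β := by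
  induction d generalizing β with
  | zero =>
    simp only [Psi, Multiset.replicate_zero, FU_zero, toV_vac_eq, Wd, sum_mul, Nat.factorial_zero,
      Nat.cast_one, one_mul]
    refine sum_congr rfl fun τ _ => ?_
    split_ifs with h
    · subst h; simp [Nat.descFactorial_self]
    · have : ∃ i, β i < τ i := by
        by_contra hc
        push Not at hc
        apply h
        have h1 : ∑ i, ((τ i : Fin n) : ℕ) = ∑ i, β i := by
          rw [hβ, add_zero, ← sum_val]; exact Equiv.sum_comp τ Fin.val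
        funext i
        exact ((sum_eq_sum_iff_of_le fun i _ => hc i).mp h1 i (mem_univ i)).symm
      obtain ⟨i, hi⟩ := this
      rw [zero_mul, prod_eq_zero (mem_univ i), mul_zero]
      rw [Nat.descFactorial_eq_zero_iff_lt.mpr hi]; rfl
  | succ d ih =>
    have e1 : ∀ i, (if 1 ≤ β i then Psi n (Multiset.replicate d 1) (update β i (β i - 1)) else 0) *
        ∏ j, ((β j).factorial : ℤ) = d.factorial * (β i * Wd (update β i (β i - 1))) := by
      intro i
      split_ifs with h
      · have := ih (update β i (β i - 1)) (by have := sum_update β i (β i - 1); omega)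
        have e : ∏ j, ((β j).factorial : ℤ) =
            β i * ∏ j, ((update β i (β i - 1) j).factorial : ℤ) := by
          rw [← mul_prod_erase univ _ (mem_univ i), ← mul_prod_erase univ _ (mem_univ i),
            update_self, ← mul_assoc, ← Nat.cast_mul, Nat.mul_factorial_pred (by omega)]
          congr 1
          exact prod_congr rfl fun j hj => by rw [update_of_ne (ne_of_mem_erase hj)]
        rw [e]
        linear_combination (β i : ℤ) * this
      · rw [show β i = 0 by omega]; simp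
    have e2 : ∀ i, (β i : ℤ) * Wd (update β i (β i - 1)) = ∑ σ : Equiv.Perm (Fin n),
        ((β i : ℤ) - (σ i : ℕ)) *
          ((Equiv.Perm.sign σ : ℤ) * ∏ j, ((β j).descFactorial (σ j) : ℤ)) := by
      intro i
      unfold Wd
      rw [mul_sum]
      refine sum_congr rfl fun σ _ => ?_
      rw [← mul_prod_erase univ _ (mem_univ i), ← mul_prod_erase univ _ (mem_univ i), update_self]
      have : ∏ j ∈ univ.erase i, ((update β i (β i - 1) j).descFactorial (σ j) : ℤ) =
          ∏ j ∈ univ.erase i, ((β j).descFactorial (σ j) : ℤ) :=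
        prod_congr rfl fun j hj => by rw [update_of_ne (ne_of_mem_erase hj)]
      rw [this]
      linear_combination ((Equiv.Perm.sign σ : ℤ) *
        ∏ j ∈ univ.erase i, ((β j).descFactorial (σ j) : ℤ)) * desc_step (β i) (σ i)
    rw [Multiset.replicate_succ, Psi, FU_cons, U, sum_mul]
    simp only [← Psi.eq_1, e1, e2]
    rw [← mul_sum, sum_comm, Nat.factorial_succ, Wd, mul_sum, mul_sum]
    refine sum_congr rfl fun σ _ => ?_
    rw [← sum_mul, sum_sub_distrib, ← Nat.cast_sum, ← Nat.cast_sum, hβ,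
      Equiv.sum_comp σ Fin.val, sum_val]
    push_cast; ring

theorem sum_emb (X : Finset ℕ) (hX : X.card = n) : ∑ i, X.orderEmbOfFin hX i = ∑ x ∈ X, x := by
  conv_rhs => rw [← image_emb X hX]
  rw [sum_image fun i _ j _ e => (X.orderEmbOfFin hX).injective e]

theorem dm_pos {d : ℕ} {X : Finset ℕ} (h : Wt X d) : 0 < dm d X := by
  have := Psi_ones d (X.orderEmbOfFin rfl) (by rw [sum_emb]; exact h)
  rw [Psi_eq_chi, sg_mono (X.orderEmbOfFin rfl).strictMono, image_emb, one_mul, Wd_eq] at this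
  have h1 : (0 : ℤ) < d.factorial * ∏ i, ∏ j ∈ Ioi i,
      ((X.orderEmbOfFin rfl j : ℤ) - X.orderEmbOfFin rfl i) := by
    refine mul_pos (by exact_mod_cast d.factorial_pos) (prod_pos fun i _ => prod_pos fun j hj => ?_)
    have := (X.orderEmbOfFin rfl).strictMono (mem_Ioi.mp hj)
    omega
  rw [← this] at h1
  refine lt_of_le_of_ne (dm_nonneg d X) fun e => ?_
  unfold dm at e
  rw [← e] at h1; simp at h1

theorem dm_zero {X : Finset ℕ} (h : Wt X 0) : dm 0 X = 1 := by
  have := dm_pos h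
  simp only [dm, Multiset.replicate_zero, chi_zero, vac] at this ⊢
  split_ifs at this ⊢
  · rfl
  · exact absurd this (lt_irrefl _)

theorem Wt.cj {N d : ℕ} {X : Finset ℕ} (hX : ∀ x ∈ X, x < N) (h : Wt X d) : Wt (cj N X) d := by
  apply dm_supp
  unfold dm
  rw [chi_cj N (ones_pos d) hX, sm_ones, one_mul]
  exact (dm_pos h).ne'

/-! ### removing the first row -/

def Row (X X' : Finset ℕ) (a : ℕ) : Prop :=
  X = insert (X'.card + a) X' ∧ ∀ x ∈ X', x < X'.card + a

theorem exists_row {X : Finset ℕ} (h : X.Nonempty) : ∃ X' a, Row X X' a := by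
  induction X using Finset.induction_on_max with
  | empty => exact absurd h (by simp)
  | insert B X hB _ =>
    have h2 : X.card ≤ B := by
      have := card_le_card (s := X) (t := range B) fun x hx => mem_range.mpr (hB x hx)
      rwa [card_range] at this
    refine ⟨X, B - X.card, ?_⟩
    unfold Row
    rw [show X.card + (B - X.card) = B by omega]
    exact ⟨rfl, hB⟩

theorem Row.notMem {X X' : Finset ℕ} {a : ℕ} (h : Row X X' a) : X'.card + a ∉ X' :=
  fun h' => lt_irrefl _ (h.2 _ h')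

theorem Row.card {X X' : Finset ℕ} {a : ℕ} (h : Row X X' a) : X.card = X'.card + 1 := by
  rw [h.1, card_insert_of_notMem h.notMem]

theorem Row.wt {X X' : Finset ℕ} {a k : ℕ} (h : Row X X' a) (hk : Wt X' k) : Wt X (a + k) := by
  unfold Wt at *
  rw [h.card, h.1, sum_insert h.notMem, hk, Nat.choose_succ_succ', Nat.choose_one_right]
  ring

theorem Row.wt' {X X' : Finset ℕ} {a d : ℕ} (h : Row X X' a) (hd : Wt X d) :
    ∃ k, d = a + k ∧ Wt X' k := by
  obtain ⟨k, hk⟩ := exists_Wt X'
  exact ⟨k, hd.unique (h.wt hk), hk⟩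

theorem Row.box {X X' : Finset ℕ} {a a₀ l : ℕ} (h : Row X X' a) (hB : Box X a₀ l) :
    a ≤ a₀ ∧ Box X' a (l - 1) := by
  have := h.card
  refine ⟨?_, h.2, fun x hx => ?_⟩
  · have := hB.1 (X'.card + a) (h.1 ▸ mem_insert_self _ _); omega
  · have := hB.2 x (by omega)
    rw [h.1, mem_insert] at this
    exact this.resolve_left (by omega)

theorem Row.box' {X X' : Finset ℕ} {a a₀ l : ℕ} (h : Row X X' a) (hB : Box X a₀ l) :
    Box X a l := by
  refine ⟨fun b hb => ?_, hB.2⟩
  rw [h.card]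
  rw [h.1, mem_insert] at hb
  rcases hb with e | e
  · omega
  · have := h.2 b e; omega

theorem Wt.nonempty {X : Finset ℕ} {d : ℕ} (h : Wt X d) (hd : 0 < d) : X.Nonempty := by
  rw [nonempty_iff_ne_empty]
  rintro rfl
  simp [Wt] at h; omega

theorem wt_le_box {X : Finset ℕ} {a l d : ℕ} (hB : Box X a l) (hw : Wt X d) : d ≤ a * l := by
  induction l generalizing X a d with
  | zero =>
    have : range X.card = X := eq_of_subset_of_card_le
      (fun x hx => hB.2 x (by simpa using hx)) (by simp)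
    rw [← this] at hw
    exact (hw.unique (Wt_range _)).le
  | succ l ih =>
    rcases Nat.eq_zero_or_pos d with h | h
    · omega
    obtain ⟨X', s, hr⟩ := exists_row (hw.nonempty h)
    obtain ⟨k, rfl, hk⟩ := hr.wt' hw
    obtain ⟨h1, h2⟩ := hr.box hB
    have := ih h2 hk
    nlinarith

/-- the same partition or the conjugate one -/
def Tw (X Y : Finset ℕ) : Prop :=
  (∀ μ : Multiset ℕ, (∀ r ∈ μ, 0 < r) → chi μ X = chi μ Y) ∨
    ∀ μ : Multiset ℕ, (∀ r ∈ μ, 0 < r) → chi μ X = sm μ * chi μ Y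

theorem Tw.abs {X Y : Finset ℕ} (h : Tw X Y) {μ : Multiset ℕ} (hμ : ∀ r ∈ μ, 0 < r) :
    |chi μ X| = |chi μ Y| := by
  rcases h with h | h
  · rw [h μ hμ]
  · rw [h μ hμ]; rcases sm_sq μ with e | e <;> simp [e]

theorem Tw.dm {X Y : Finset ℕ} (h : Tw X Y) (d : ℕ) : dm d X = dm d Y := by
  unfold MP_f0a921_al.dm
  rcases h with h | h
  · rw [h _ (ones_pos d)]
  · rw [h _ (ones_pos d), sm_ones, one_mul]

theorem reduce {X : Finset ℕ} {d : ℕ} (hw : Wt X d) (hd : 0 < d) :
    ∃ Y Y' s, Row Y Y' s ∧ Box Y s s ∧ Wt Y d ∧ Tw X Y ∧ ∀ a, Box X a a ↔ s ≤ a := by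
  obtain ⟨a₀, hb⟩ := exists_box X
  set N := X.card + a₀
  have hN : ∀ x ∈ X, x < N := hb.1
  have hN' : ∀ x ∈ cj N X, x < N := fun x hx => (mem_cj.mp hx).1
  have hw' := hw.cj hN
  obtain ⟨X', a₁, h1⟩ := exists_row (hw.nonempty hd)
  obtain ⟨Z', a₂, h2⟩ := exists_row (hw'.nonempty hd)
  have b2 : Box (cj N X) a₂ a₁ := h2.box' ((h1.box' hb).cj hN)
  have b1 : Box X a₁ a₂ := by have := b2.cj hN'; rwa [cj_cj hN] at this
  have key : ∀ a, Box X a a ↔ a₁ ≤ a ∧ a₂ ≤ a := fun a =>
    ⟨fun h => ⟨(h1.box h).1, (h2.box (h.cj hN)).1⟩, fun h => b1.mono h.1 h.2⟩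
  rcases le_total a₂ a₁ with h | h
  · exact ⟨X, X', a₁, h1, b1.mono le_rfl h, hw, Or.inl fun _ _ => rfl,
      fun a => (key a).trans (by omega)⟩
  · refine ⟨cj N X, Z', a₂, h2, b2.mono le_rfl h, hw', Or.inr fun μ hμ => ?_,
      fun a => (key a).trans (by omega)⟩
    rw [← chi_cj N hμ hN', cj_cj hN]

theorem Row.hooks {X X' : Finset ℕ} {a k : ℕ} (h : Row X X' a) (hk : Wt X' k) :
    ∃ S : Finset ℕ, (∀ x ∈ S, 0 < x) ∧ S.card = a ∧ 2 * ∑ x ∈ S, x = a * (a + 1) + 2 * k ∧
      dm (a + k) X * (∏ x ∈ S, x : ℕ) * k.factorial = (a + k).factorial * dm k X' := by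
  set B := X'.card + a with hB
  have hsub : X' ⊆ range B := fun x hx => mem_range.mpr (h.2 x hx)
  have hinj : Set.InjOn (fun x => B - x) ↑(range B \ X') := by
    intro x hx y hy e
    have := mem_range.mp (mem_sdiff.mp hx).1
    have := mem_range.mp (mem_sdiff.mp hy).1
    simp only at e; omega
  refine ⟨(range B \ X').image (fun x => B - x), ?_, ?_, ?_, ?_⟩
  · intro x hx
    obtain ⟨y, hy, rfl⟩ := mem_image.mp hx
    have := mem_range.mp (mem_sdiff.mp hy).1
    omega
  · rw [card_image_of_injOn hinj, card_sdiff_of_subset hsub, card_range]; omega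
  · rw [sum_image hinj]
    have e1 := sum_sdiff hsub (f := fun x => B - x)
    have e2 : ∑ x ∈ range B, (B - x) + ∑ x ∈ range B, x = B * B := by
      rw [← sum_add_distrib, sum_congr rfl fun x hx => Nat.sub_add_cancel (mem_range.mp hx).le]
      simp
    have e3 : ∑ x ∈ X', (B - x) + ∑ x ∈ X', x = X'.card * B := by
      rw [← sum_add_distrib, sum_congr rfl fun x hx => Nat.sub_add_cancel (h.2 x hx).le,
        sum_const, smul_eq_mul]
    have e4 : ∀ m : ℕ, 2 * ∑ x ∈ range m, x + m = m * m := by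
      intro m
      induction m with
      | zero => rfl
      | succ m ih => rw [sum_range_succ]; nlinarith
    have e5 := e4 B
    have e6 := e4 X'.card
    have e7 := Wt_range X'.card
    unfold Wt at hk e7
    rw [card_range] at e7
    nlinarith
  · rw [prod_image hinj]
    set γ := X'.orderEmbOfFin rfl
    have e1 := Psi_ones k γ (by rw [sum_emb]; exact hk)
    have hw := h.wt hk
    have e2 := Psi_ones (a + k) (Fin.cons B γ : Fin (X'.card + 1) → ℕ) (by
      rw [Fin.sum_univ_succ, Fin.cons_zero]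
      simp only [Fin.cons_succ]
      unfold Wt at hw
      rw [sum_emb, ← h.card, ← hw, h.1, sum_insert h.notMem])
    have e3 : image (Fin.cons B γ : Fin (X'.card + 1) → ℕ) univ = X := by
      rw [h.1, Fin.univ_succ, cons_eq_insert, image_insert, map_eq_image, image_image]
      congr 1
      exact image_emb X' rfl
    have hlt : ∀ j, γ j < B := fun j => h.2 _ (orderEmbOfFin_mem X' rfl j)
    rw [Psi_eq_chi, sg_cons, e3, Wd_eq, Fin.prod_univ_succ, Fin.prod_univ_succ,
      Fin.prod_Ioi_zero] at e2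
    simp only [Fin.prod_Ioi_succ, Fin.cons_zero, Fin.cons_succ] at e2
    rw [Psi_eq_chi, image_emb, Wd_eq] at e1
    rw [sg_mono γ.strictMono] at e1 e2
    have e4 : ∏ j, ((γ j : ℤ) - B) = (∏ j, Int.sign ((γ j : ℤ) - B)) * (∏ x ∈ X', (B - x) : ℕ) := by
      have : ∏ x ∈ X', (B - x) = ∏ j, (B - γ j) := by
        rw [← prod_image (s := univ) (g := γ) (f := fun x => B - x)
          fun i _ j _ e => γ.injective e, image_emb]
      rw [this, Nat.cast_prod, ← prod_mul_distrib]
      refine prod_congr rfl fun j _ => ?_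
      have := hlt j
      rw [Int.sign_eq_neg_one_of_neg (by omega)]
      omega
    have e5 : (∏ j, Int.sign ((γ j : ℤ) - B)) ≠ 0 := prod_ne_zero_iff.mpr fun j _ => by
      have := hlt j
      rw [Int.sign_eq_neg_one_of_neg (by omega)]; simp
    have e6 : B.factorial = (∏ x ∈ range B \ X', (B - x)) * ∏ x ∈ X', (B - x) := by
      rw [prod_sdiff hsub, ← prod_range_add_one_eq_factorial, ← prod_range_reflect]
      exact prod_congr rfl fun x hx => by have := mem_range.mp hx; omega
    have e7 : ((∏ x ∈ X', (B - x) : ℕ) : ℤ) ≠ 0 := by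
      rw [Nat.cast_ne_zero]
      exact prod_ne_zero_iff.mpr fun x hx => by have := h.2 x hx; omega
    have e8 : ∏ j, ((γ j).factorial : ℤ) ≠ 0 :=
      prod_ne_zero_iff.mpr fun j _ => by exact_mod_cast Nat.factorial_ne_zero _
    rw [e4, e6] at e2
    unfold dm
    apply mul_left_cancel₀ (mul_ne_zero (mul_ne_zero e5 e7) e8)
    rw [Nat.cast_mul] at e2
    linear_combination (k.factorial : ℤ) * e2 - ((∏ j, Int.sign ((γ j : ℤ) - B)) *
      ((∏ x ∈ X', (B - x) : ℕ) : ℤ) * ((a + k).factorial : ℤ)) * e1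

end Pool.Agent.MP_f0a921_al
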