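import Pool.Agent.MP_f0a921_al.NumDef

/-! Definitions for the exact computation of small character tables. -/

namespace Pool.Agent.MP_f0a921_al

noncomputable section

inductive VT
  | leaf : VT
  | node : VT → ℕ → ℕ → ℕ → VT → VT

def VT.find (sel : Bool) (t : VT) (m : ℕ) : ℕ :=
  VT.rec 0 (fun _ k v f _ a b =>
    bif Nat.blt m k then a else bif Nat.blt k m then b else bif sel then v else f) t

def frc {α : Type} (n : ℕ) (k : ℕ → α) : α := Nat.rec (k 0) (fun p _ => k (Nat.succ p)) n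

theorem frc_eq {α : Type} (n : ℕ) (k : ℕ → α) : frc n k = k n := by cases n <;> rfl

def tB (m i : ℕ) : Bool := Nat.beq (Nat.land 1 (Nat.shiftRight m i)) 1

def en (f : ℕ) : ℕ → ℕ → List (List ℕ) :=
  Nat.rec (fun _ _ => [[]]) (fun _ ih e r => bif Nat.beq e 0 then [[]] else
    (List.range (e + 1 - r)).flatMap fun i => (ih i (e - i)).map (List.cons (e - i))) f

/-- partitions of `e` with all parts at least `r` -/
def En (e r : ℕ) : List (List ℕ) := en e e r

def cnt (e r : ℕ) : ℕ := (En e r).length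

def gen (n : ℕ) : ℕ → ℕ → ℕ → List ℕ → List ℕ :=
  Nat.rec (fun e _ m L => bif Nat.beq e 0 then m :: L else L) (fun n ih e a m L =>
    bif Nat.blt (Nat.mul (Nat.succ n) a) e then L else
    Nat.rec L (fun s acc => frc (Nat.sub e s) fun e' =>
      frc (Nat.add m (Nat.pow 2 (Nat.add n s))) fun m' => ih e' s m' acc)
      (Nat.succ (bif Nat.ble a e then a else e))) n

def snM (m b r : ℕ) : Bool :=
  Nat.rec true (fun i s => bif tB m (Nat.sub (Nat.sub b 1) i) then not s else s) (Nat.sub r 1)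

def UbM (N r : ℕ) (h : ℕ → ℕ) (o m : ℕ) : ℕ × ℕ :=
  Nat.rec (0, 0) (fun c acc => bif tB m c then acc else bif tB m (Nat.add c r) then
    frc (Nat.add (Nat.sub m (Nat.pow 2 (Nat.add c r))) (Nat.pow 2 c)) fun m' =>
      bif snM m (Nat.add c r) r then (Nat.add acc.1 (h m'), Nat.add acc.2 o)
      else (Nat.add acc.1 o, Nat.add acc.2 (h m')) else acc) (Nat.sub N r)

def off (c : ℕ) : ℕ := Nat.rec 0 (fun _ o => Nat.add 2147483648 (Nat.mul 4294967311 o)) c

def sc (c : ℕ) : ℕ := Nat.pow 4294967311 c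

def blk (tb : ℕ → VT) (e m i : ℕ) : ℕ × ℕ :=
  frc (Nat.sub e i) fun r => UbM (Nat.add 19 e) r
    (fun m' => Nat.mod ((tb i).find true m') (sc (cnt i r))) (off (cnt i r)) m

def cmpP (tb : ℕ → VT) (e m t : ℕ) : ℕ × ℕ :=
  Nat.rec (0, 0) (fun i acc => bif Nat.beq (cnt i (Nat.sub e i)) 0 then acc else
    (Nat.add acc.1 (Nat.mul (sc (cnt e (Nat.sub (Nat.succ e) i))) (blk tb e m i).1),
      Nat.add acc.2 (Nat.mul (sc (cnt e (Nat.sub (Nat.succ e) i))) (blk tb e m i).2))) t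

def fin (o : ℕ) (p : ℕ × ℕ) : ℕ := Nat.sub (Nat.add o p.1) p.2

def comp (tb : ℕ → VT) (r₀ e m : ℕ) : ℕ :=
  fin (off (cnt e r₀)) (cmpP tb e m (Nat.sub (Nat.succ e) r₀))

def cdim (tb : ℕ → VT) (e m : ℕ) : ℕ :=
  fin 0 (UbM (Nat.add 19 e) 1 ((tb (Nat.sub e 1)).find false) 0 m)

def tchk (tb : ℕ → VT) (r₀ e : ℕ) : Bool :=
  (gen 19 e e 0 []).all fun m => Nat.beq ((tb e).find true m) (comp tb r₀ e m) &&
    Nat.beq ((tb e).find false m) (cdim tb e m)

def dec (P : List ℕ → ℕ → Bool) (L : List (List ℕ)) : ℕ → Bool :=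
  List.rec (fun _ => true) (fun l _ ih z => frc (Nat.mod z 4294967311) fun u =>
    frc (bif Nat.ble 2147483648 u then Nat.sub u 2147483648 else Nat.sub 2147483648 u) (P l) &&
    frc (Nat.div z 4294967311) ih) L

def P0 (d f : ℕ) (l : List ℕ) (v : ℕ) : Bool :=
  Nat.blt (Nat.mul v (Nat.sub d 1)) f || Nat.beq (2 * l.count 2) d

def P1 (d f : ℕ) (l : List ℕ) (v : ℕ) : Bool :=
  Nat.blt (Nat.mul v (tD 1 (l.count 2) d)) (Nat.mul (tN 1 (l.count 2)) f) ||
    (Nat.ble (l.count 2) 1 && Nat.beq (1 + 2 * l.count 2 + 3 * l.count 3) d && Nat.blt (v * d) f)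

def fchk (tb : ℕ → VT) (d : ℕ) : Bool :=
  (gen 19 d (d - 4) 0 []).all fun m => !allB (23 - d) (tB m) ||
    frc (cdim tb d m) fun f => frc (comp tb 2 d m) (dec (P0 d f) (En d 2)) &&
      frc (fin (off (cnt (d - 1) 2)) (UbM (Nat.add 19 d) 1 ((tb (d - 1)).find true)
        (off (cnt (d - 1) 2)) m)) (dec (P1 d f) (En (d - 1) 2))

def P2 (f : ℕ) (l : List ℕ) (v : ℕ) : Bool :=
  Nat.blt (l.count 1) 2 || Nat.beq (l.count 1) 10 ||
    bif Nat.beq (l.count 1) 2 && Nat.beq (l.count 2) 4 then Nat.blt (v * 10) (2 * f)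
    else Nat.blt (v * 9) ((l.count 1 - 1) * f)

def bchk (tb : ℕ → VT) : Bool :=
  (gen 19 10 8 0 []).all fun m => !allB 11 (tB m) ||
    frc (cdim tb 10 m) fun f => frc (comp tb 1 10 m) (dec (P2 f) (En 10 1))

end

end Pool.Agent.MP_f0a921_al
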