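import Pool.Agent.MP_f0a921_al.Dim

/-! Upper bounds for products of hook lengths. -/

namespace Pool.Agent.MP_f0a921_al
open Finset Function

/-- largest product of `a` distinct positive integers with sum `a(a+1)/2 + k` -/
def Mn (a k : ℕ) : ℕ :=
  (a + k / a + 1).factorial / ((k / a).factorial * (a - k % a + k / a + 1))

theorem fac_prod (m s : ℕ) : m.factorial * ∏ i ∈ range s, (m + i + 1) = (m + s).factorial := by
  induction s with
  | zero => simp
  | succ s ih => rw [prod_range_succ, ← mul_assoc, ih, ← add_assoc, Nat.factorial_succ]; ring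

theorem seq_le (a : ℕ) (x y : ℕ → ℕ) (hy0 : ∀ i, 0 < y i) (hy : ∀ i, y i ≤ y (i + 1))
    (hP : ∀ t ≤ a, ∑ i ∈ range t, x i ≤ ∑ i ∈ range t, y i) :
    ∏ i ∈ range a, x i ≤ ∏ i ∈ range a, y i := by
  have hy1 : ∀ i, (0 : ℝ) < y i := fun i => by exact_mod_cast hy0 i
  have h1 : ∀ t ≤ a, ∑ i ∈ range t, ((x i : ℝ) / y i - 1) ≤
      (∑ i ∈ range t, (x i : ℝ) - ∑ i ∈ range t, (y i : ℝ)) / y t := by
    intro t
    induction t with
    | zero => simp
    | succ t ih =>
      intro ht
      have h2 : (∑ i ∈ range (t + 1), (x i : ℝ) - ∑ i ∈ range (t + 1), (y i : ℝ)) ≤ 0 := by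
        have := hP (t + 1) ht
        rw [sub_nonpos]; exact_mod_cast this
      have h3 : (∑ i ∈ range (t + 1), (x i : ℝ) - ∑ i ∈ range (t + 1), (y i : ℝ)) / y t ≤
          (∑ i ∈ range (t + 1), (x i : ℝ) - ∑ i ∈ range (t + 1), (y i : ℝ)) / y (t + 1) := by
        rw [div_le_div_iff₀ (hy1 _) (hy1 _)]
        exact mul_le_mul_of_nonpos_left (by exact_mod_cast hy t) h2
      refine le_trans ?_ h3
      rw [sum_range_succ, sum_range_succ, sum_range_succ]
      have := ih (by omega)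
      have e : (∑ i ∈ range t, (x i : ℝ) + x t - (∑ i ∈ range t, (y i : ℝ) + y t)) / y t =
          (∑ i ∈ range t, (x i : ℝ) - ∑ i ∈ range t, (y i : ℝ)) / y t + ((x t : ℝ) / y t - 1) := by
        have := (hy1 t).ne'
        field_simp; ring
      linarith
  have h4 : ∑ i ∈ range a, ((x i : ℝ) / y i - 1) ≤ 0 := by
    refine (h1 a le_rfl).trans (div_nonpos_of_nonpos_of_nonneg ?_ (hy1 a).le)
    rw [sub_nonpos]; exact_mod_cast hP a le_rfl
  have h5 : ∏ i ∈ range a, ((x i : ℝ) / y i) ≤ 1 := by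
    calc ∏ i ∈ range a, ((x i : ℝ) / y i) ≤ ∏ i ∈ range a, Real.exp ((x i : ℝ) / y i - 1) :=
          prod_le_prod (fun i _ => by positivity) fun i _ => by
            have := Real.add_one_le_exp ((x i : ℝ) / y i - 1); linarith
      _ = Real.exp (∑ i ∈ range a, ((x i : ℝ) / y i - 1)) := (Real.exp_sum _ _).symm
      _ ≤ 1 := Real.exp_le_one_iff.mpr h4
  rw [prod_div_distrib, div_le_one (prod_pos fun i _ => hy1 i)] at h5
  exact_mod_cast h5

theorem two_sum_range (m : ℕ) : 2 * ∑ x ∈ range m, x + m = m * m := by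
  induction m with
  | zero => rfl
  | succ m ih => rw [sum_range_succ]; nlinarith

theorem prod_le_Mn {S : Finset ℕ} {a k : ℕ} (ha : 0 < a) (hc : S.card = a)
    (hs : 2 * ∑ x ∈ S, x = a * (a + 1) + 2 * k) : ∏ x ∈ S, x ≤ Mn a k := by
  have hk : a * (k / a) + k % a = k := Nat.div_add_mod k a
  have hr : k % a < a := Nat.mod_lt k ha
  unfold Mn
  generalize k / a = q at *
  generalize k % a = r at *
  obtain ⟨s, hsa⟩ : ∃ s, a = s + r := ⟨a - r, by omega⟩
  let γ := S.orderEmbOfFin hc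
  let x : ℕ → ℕ := fun i => if h : i < a then γ ⟨i, h⟩ else 0
  let y : ℕ → ℕ := fun i => q + i + 1 + if i < s then 0 else 1
  have hx : ∀ F : ℕ → ℕ, ∏ v ∈ S, F v = ∏ i ∈ range a, F (x i) := by
    intro F
    rw [← Fin.prod_univ_eq_prod_range (fun i => F (x i)), ← image_emb S hc,
      prod_image fun i _ j _ e => γ.injective e]
    exact prod_congr rfl fun i _ => by simp [x, γ]
  have hx' : ∑ v ∈ S, v = ∑ i ∈ range a, x i := by
    rw [← Fin.sum_univ_eq_sum_range x, ← sum_emb S hc]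
    exact sum_congr rfl fun i _ => by simp [x, γ]
  have hgap : ∀ i j, i + j < a → x i + j ≤ x (i + j) := by
    intro i j
    induction j with
    | zero => simp
    | succ j ih =>
      intro h
      have h1 := ih (by omega)
      have h2 : x (i + j) < x (i + (j + 1)) := by
        simp only [x, dif_pos h, dif_pos (show i + j < a by omega)]
        exact γ.strictMono (by simp)
      omega
  have hy : (∏ i ∈ range a, y i) * (q.factorial * (a - r + q + 1)) = (a + q + 1).factorial := by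
    rw [hsa, prod_range_add, show s + r - r = s by omega]
    have e1 : ∏ i ∈ range s, y i = ∏ i ∈ range s, (q + i + 1) :=
      prod_congr rfl fun i hi => by simp [y, mem_range.mp hi]
    have e2 : ∏ i ∈ range r, y (s + i) = ∏ i ∈ range r, (q + s + 1 + i + 1) :=
      prod_congr rfl fun i _ => by simp [y]; ring
    rw [e1, e2, show s + r + q + 1 = q + s + 1 + r by ring, ← fac_prod (q + s + 1) r,
      Nat.factorial_succ, ← fac_prod q s]
    ring
  have hys : ∑ i ∈ range a, y i = ∑ i ∈ range a, x i := by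
    have e : ∑ i ∈ range a, (if i < s then 0 else 1) = r := by
      rw [hsa, sum_range_add, sum_eq_zero fun i hi => if_pos (mem_range.mp hi)]
      simp
    have e' : ∑ i ∈ range a, (q + i) = a * q + ∑ i ∈ range a, i := by
      rw [sum_add_distrib]; simp
    simp only [y, sum_add_distrib, e, e', sum_const, card_range, smul_eq_mul]
    have := two_sum_range a
    nlinarith
  rw [Nat.le_div_iff_mul_le (by positivity), ← hy, hx (fun v => v)]
  refine Nat.mul_le_mul_right _ (seq_le a x y (fun i => by simp only [y]; omega)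
    (fun i => by simp only [y]; split_ifs <;> omega) fun t ht => ?_)
  rcases t with _ | t
  · simp
  by_cases hc : x t ≤ q + t + 1
  · refine sum_le_sum fun i hi => ?_
    have h1 := mem_range.mp hi
    have := hgap i (t - i) (by omega)
    rw [show i + (t - i) = t by omega] at this
    simp only [y]; omega
  · obtain ⟨u, rfl⟩ : ∃ u, a = t + 1 + u := ⟨a - (t + 1), by omega⟩
    rw [sum_range_add _ (t + 1), sum_range_add _ (t + 1)] at hys
    have : ∑ i ∈ range u, y (t + 1 + i) ≤ ∑ i ∈ range u, x (t + 1 + i) := by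
      refine sum_le_sum fun i hi => ?_
      have h1 := mem_range.mp hi
      have := hgap t (1 + i) (by omega)
      rw [← Nat.add_assoc t 1 i] at this
      simp only [y]; split_ifs <;> omega
    omega

theorem hook_ind (Hb : ℕ → ℕ → ℝ) (N : ℕ) (h0 : ∀ a, 1 ≤ Hb 0 a)
    (hstep : ∀ a s k, s + k ≤ N → 1 ≤ s → s ≤ a → s + k ≤ s * s → ∀ S : Finset ℕ,
      (∀ x ∈ S, 0 < x) → S.card = s → 2 * ∑ x ∈ S, x = s * (s + 1) + 2 * k →
      (∏ x ∈ S, x : ℕ) * Hb k s ≤ Hb (s + k) a)
    (m : ℕ) (hm : m ≤ N) (X : Finset ℕ) (a : ℕ) (hw : Wt X m) (hB : Box X a a) :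
    (m.factorial : ℝ) ≤ dm m X * Hb m a := by
  induction m using Nat.strong_induction_on generalizing X a with
  | _ m ih =>
  rcases Nat.eq_zero_or_pos m with h | h
  · subst h; rw [dm_zero hw]; simpa using h0 a
  obtain ⟨Y, Y', s, hr, hY, hwY, ht, hs⟩ := reduce hw h
  obtain ⟨k, rfl, hk⟩ := hr.wt' hwY
  have h1 := wt_le_box hY hwY
  have h2 : 1 ≤ s := by
    rcases s with _ | s
    · omega
    · omega
  obtain ⟨S, a1, a2, a3, a4⟩ := hr.hooks hk
  have h3 := ih k (by omega) (by omega) Y' s hk ((hr.box hY).2.mono le_rfl (by omega))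
  have h4 := hstep a s k hm h2 ((hs a).mp hB) h1 S a1 a2 a3
  rw [ht.dm]
  have a5 : (dm (s + k) Y : ℝ) * (∏ x ∈ S, x : ℕ) * k.factorial =
      (s + k).factorial * dm k Y' := by exact_mod_cast a4
  have p1 : (0 : ℝ) < dm k Y' := by exact_mod_cast dm_pos hk
  have p2 : (0 : ℝ) < dm (s + k) Y := by exact_mod_cast dm_pos hwY
  have p3 : (0 : ℝ) ≤ (∏ x ∈ S, x : ℕ) := Nat.cast_nonneg _
  apply le_of_mul_le_mul_right _ p1
  calc ((s + k).factorial : ℝ) * dm k Y' = dm (s + k) Y * (∏ x ∈ S, x : ℕ) * k.factorial := a5.symm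
    _ ≤ dm (s + k) Y * (∏ x ∈ S, x : ℕ) * (dm k Y' * Hb k s) := by gcongr
    _ = dm (s + k) Y * ((∏ x ∈ S, x : ℕ) * Hb k s) * dm k Y' := by ring
    _ ≤ dm (s + k) Y * Hb (s + k) a * dm k Y' := by gcongr

theorem prod_le_exp (S : Finset ℕ) {c : ℝ} (hc : 0 < c) :
    ((∏ x ∈ S, x : ℕ) : ℝ) ≤ c ^ S.card * Real.exp ((∑ x ∈ S, x : ℕ) / c - S.card) := by
  have : ((∑ x ∈ S, x : ℕ) : ℝ) / c - S.card = ∑ x ∈ S, ((x : ℝ) / c - 1) := by
    rw [sum_sub_distrib, ← sum_div]; simp
  rw [this, Real.exp_sum, ← prod_const, ← prod_mul_distrib, Nat.cast_prod]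
  refine prod_le_prod (fun i _ => by positivity) fun i _ => ?_
  have := Real.add_one_le_exp ((i : ℝ) / c - 1)
  have e : (i : ℝ) = c * (i / c - 1 + 1) := by field_simp; ring
  calc (i : ℝ) = c * (i / c - 1 + 1) := e
    _ ≤ _ := by gcongr

theorem hook_closed {c : ℝ} (hc : 0 < c) {m a : ℕ} {X : Finset ℕ} (hw : Wt X m) (hB : Box X a a)
    (hca : (a : ℝ) + m / a ≤ 2 * c) : (m.factorial : ℝ) ≤ dm m X * c ^ m := by
  have := hook_ind (fun m a => c ^ m * Real.exp (m * (a + m / a) / 2 / c - m)) m (by simp) ?_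
    m le_rfl X a hw hB
  · refine this.trans (mul_le_mul_of_nonneg_left ?_ (by exact_mod_cast dm_nonneg m X))
    refine mul_le_of_le_one_right (by positivity) (Real.exp_le_one_iff.mpr ?_)
    rw [sub_nonpos, div_le_iff₀ hc]
    have : (0 : ℝ) ≤ m := Nat.cast_nonneg m
    nlinarith
  · intro a s k _ h1 h2 h3 S _ a2 a3
    have h4 := prod_le_exp S hc
    rw [a2] at h4
    have a4 : ((∑ x ∈ S, x : ℕ) : ℝ) = (s * (s + 1) + 2 * k) / 2 := by
      have : (2 : ℝ) * (∑ x ∈ S, x : ℕ) = s * (s + 1) + 2 * k := by exact_mod_cast a3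
      linarith
    have p1 : (1 : ℝ) ≤ s := by exact_mod_cast h1
    have p2 : (s : ℝ) ≤ a := by exact_mod_cast h2
    have p3 : (s : ℝ) + k ≤ s * s := by exact_mod_cast h3
    have p4 : (0 : ℝ) ≤ k := Nat.cast_nonneg k
    calc _ ≤ c ^ s * Real.exp ((∑ x ∈ S, x : ℕ) / c - s) *
          (c ^ k * Real.exp (k * (s + k / s) / 2 / c - k)) := by gcongr
      _ = c ^ (s + k) * Real.exp (((s + k) * (s + (s + k) / s) / 2) / c - (s + k)) := by
        rw [mul_mul_mul_comm, ← pow_add, ← Real.exp_add, a4]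
        congr 2
        field_simp; ring
      _ ≤ _ := by
        push_cast
        gcongr ?_ * Real.exp (?_ * ?_ / 2 / c - ?_)
        have : (s : ℝ) + (s + k) / s - (a + (s + k) / a) = (a - s) * (s + k - s * a) / (s * a) := by
          have : (a : ℝ) ≠ 0 := by linarith
          field_simp; ring
        rw [← sub_nonpos, this]
        apply div_nonpos_of_nonpos_of_nonneg _ (by positivity)
        apply mul_nonpos_of_nonneg_of_nonpos <;> nlinarith

end Pool.Agent.MP_f0a921_al
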