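import Pool.Agent.MP_f0a921_al.Tab

/-! Definitions of the numerical checkers. -/

namespace Pool.Agent.MP_f0a921_al

/-- `Yf p f R = R (R - p) (R - 2 p) ...` -/
def Yf (p f : ℕ) : ℕ → ℕ :=
  Nat.rec (fun _ => 1) (fun _ ih R => bif Nat.ble p R then R * ih (R - p) else 1) f

def tN (m j : ℕ) : ℕ := if m = 0 then 1 else if j = 0 then 2 else 2 * j

def tD (m j d : ℕ) : ℕ := if m = 0 then d - 1 else if j = 0 then d * (d - 3) else (d - 1) * (d - 2)

def xx : ℕ := 18446744073709551616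

def EE (m j t : ℕ) : ℕ := (1 + xx ^ 1) ^ m * (1 + xx ^ 2) ^ j * (1 + xx ^ 3) ^ t

noncomputable def Jone (d E N D z a : ℕ) : Bool :=
  Nat.blt (a * a) d ||
    (Nat.blt (E % xx ^ (min (d - a) (2 * a - 1) + 1) % (xx - 1) * (Mf a (d - a) * fac (d - a)) * D)
      (N * fac d) ||
    (Nat.ble (d - a) 73 &&
      Nat.blt (z * (Mf a (d - a) * Ht (d - a) a) ^ 2 * D ^ 2) (N ^ 2 * fac d ^ 2)))

noncomputable def Jcls (d m j : ℕ) : Bool :=
  Nat.blt d (m + 2 * j) || Nat.beq (d - m - 2 * j) 1 || Nat.beq (d - m - 2 * j) 2 ||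
    (Nat.beq m 0 && Nat.beq (d - m - 2 * j) 0) ||
    allB (d - 3) (Jone d (EE m j ((d - m - 2 * j) / 3)) (tN m j) (tD m j d)
      (2 ^ j * fac j * Yf 3 d (d - m - 2 * j)))

noncomputable def Jd (d : ℕ) : Bool := allB 2 fun m => allB (d / 2 + 1) fun j => Jcls d m j

def cbF (m u : ℕ) : ℕ :=
  Nat.rec 1 (fun i ih => ih + fac m / (fac (i + 1) * fac (m - (i + 1)))) u

def UR (d a : ℕ) : Bool :=
  Nat.blt ((cbF (d / 2) (min (d - a) (2 * a - 1) / 2) +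
    cbF (d / 2) ((min (d - a) (2 * a - 1) - 1) / 2)) * (Mf a (d - a) * fac (d - a)) *
      ((d - 1) * (d - 2))) (2 * fac d)

def UZ (d a : ℕ) : Bool :=
  Nat.blt (Yf 2 d d * (a * a + d) ^ (2 * d) * ((d - 1) * (d - 2)) ^ 2)
    (2 ^ 2 * fac d ^ 2 * (2 * a) ^ (2 * d))

def Uloop (d a : ℕ) : Bool :=
  Nat.rec true (fun i ih => bif UR d (i + 1) then ih else UZ d (i + 1)) a

def Ud (d : ℕ) : Bool := Uloop d (d - 5)

end Pool.Agent.MP_f0a921_al
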