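import Mathlib

/-! Vector level: the operators `U r` (multiplication by a power sum) and `D r` (its adjoint),
acting on integer functions of exponent vectors. -/

namespace Pool.Agent.MP_f0a921_al
open Finset Function

variable {n : ℕ}

def U (r : ℕ) (g : (Fin n → ℕ) → ℤ) (β : Fin n → ℕ) : ℤ :=
  ∑ i, if r ≤ β i then g (update β i (β i - r)) else 0

def D (r : ℕ) (g : (Fin n → ℕ) → ℤ) (β : Fin n → ℕ) : ℤ :=
  ∑ i, g (update β i (β i + r))

theorem U_comm (r s : ℕ) (g : (Fin n → ℕ) → ℤ) : U r (U s g) = U s (U r g) := by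
  funext β
  have key : ∀ (r s : ℕ), U r (U s g) β = ∑ i, ∑ j, if r ≤ β i ∧ s ≤ update β i (β i - r) j then
      g (update (update β i (β i - r)) j (update β i (β i - r) j - s)) else 0 := by
    intro r s
    unfold U
    refine sum_congr rfl fun i _ => ?_
    split_ifs with h
    · simp [h]
    · simp [h]
  rw [key r s, key s r, sum_comm]
  refine sum_congr rfl fun j _ => sum_congr rfl fun i _ => ?_
  by_cases hij : i = j
  · subst hij
    simp only [update_self, update_idem]
    have : β i - r - s = β i - s - r := by omega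
    rw [this]
    congr 1
    apply propext; omega
  · have hji : j ≠ i := fun h => hij h.symm
    simp only [update_of_ne hij, update_of_ne hji]
    rw [update_comm hij]
    congr 1
    apply propext; tauto

instance : LeftCommutative (U : ℕ → ((Fin n → ℕ) → ℤ) → ((Fin n → ℕ) → ℤ)) := ⟨U_comm⟩

/-- iterated `U` -/
def FU (g : (Fin n → ℕ) → ℤ) (μ : Multiset ℕ) : (Fin n → ℕ) → ℤ := μ.foldr U g

@[simp] theorem FU_zero (g : (Fin n → ℕ) → ℤ) : FU g 0 = g := rfl

@[simp] theorem FU_cons (g : (Fin n → ℕ) → ℤ) (r : ℕ) (μ : Multiset ℕ) :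
    FU g (r ::ₘ μ) = U r (FU g μ) := Multiset.foldr_cons _ _ _ _

def Anti (g : (Fin n → ℕ) → ℤ) : Prop :=
  ∀ (τ : Equiv.Perm (Fin n)) (β : Fin n → ℕ), g (β ∘ τ) = (Equiv.Perm.sign τ : ℤ) * g β

theorem upd_comp (β : Fin n → ℕ) (τ : Equiv.Perm (Fin n)) (i : Fin n) (v : ℕ) :
    update (β ∘ τ) i v = update β (τ i) v ∘ τ :=
  (update_comp_eq_of_injective β τ.injective i v).symm

theorem Anti.U {g : (Fin n → ℕ) → ℤ} (hg : Anti g) (r : ℕ) : Anti (U r g) := by
  intro τ β
  unfold MP_f0a921_al.U
  rw [mul_sum, ← Equiv.sum_comp τ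
    (fun i => (Equiv.Perm.sign τ : ℤ) * if r ≤ β i then g (update β i (β i - r)) else 0)]
  refine sum_congr rfl fun i _ => ?_
  rw [upd_comp, hg]
  simp

theorem Anti.D {g : (Fin n → ℕ) → ℤ} (hg : Anti g) (r : ℕ) : Anti (D r g) := by
  intro τ β
  unfold MP_f0a921_al.D
  rw [mul_sum, ← Equiv.sum_comp τ
    (fun i => (Equiv.Perm.sign τ : ℤ) * g (update β i (β i + r)))]
  refine sum_congr rfl fun i _ => ?_
  rw [upd_comp, hg]
  simp

theorem Anti.FU {g : (Fin n → ℕ) → ℤ} (hg : Anti g) (μ : Multiset ℕ) : Anti (FU g μ) := by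
  induction μ using Multiset.induction_on with
  | empty => exact hg
  | cons r μ ih => rw [FU_cons]; exact ih.U r

theorem Anti.inj {g : (Fin n → ℕ) → ℤ} (hg : Anti g) {β : Fin n → ℕ} (h : g β ≠ 0) :
    Injective β := by
  intro i j hij
  by_contra hne
  have h1 : β ∘ Equiv.swap i j = β := by
    funext x
    simp only [comp_apply]
    rw [Equiv.swap_apply_def]
    split_ifs with h1 h2
    · rw [h1, hij]
    · rw [h2, hij]
    · rfl
  have h2 := hg (Equiv.swap i j) β
  rw [h1, Equiv.Perm.sign_swap hne] at h2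
  simp at h2
  omega

theorem Anti.zero {g : (Fin n → ℕ) → ℤ} (hg : Anti g) {β : Fin n → ℕ} (h : ¬ Injective β) :
    g β = 0 := by
  by_contra h'; exact h (hg.inj h')

def Low (g : (Fin n → ℕ) → ℤ) (K : ℕ) : Prop :=
  ∀ β, g β ≠ 0 → ∀ t < K, ∃ i, β i = t

theorem Low.U {g : (Fin n → ℕ) → ℤ} {K : ℕ} (hg : Anti g) (hl : Low g K) {r : ℕ} (hr : 0 < r) :
    Low (U r g) (K - r) := by
  intro β hβ t ht
  have hinj := (hg.U r).inj hβ
  obtain ⟨i, -, hi⟩ := exists_ne_zero_of_sum_ne_zero hβ
  split_ifs at hi with h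
  swap
  · exact absurd rfl hi
  have hb : K ≤ β i := by
    by_contra hlt
    obtain ⟨j, hj⟩ := hl _ hi (β i) (by omega)
    by_cases hji : j = i
    · subst hji; rw [update_self] at hj; omega
    · rw [update_of_ne hji] at hj; exact hji (hinj hj)
  obtain ⟨j, hj⟩ := hl _ hi t (by omega)
  by_cases hji : j = i
  · subst hji; rw [update_self] at hj; omega
  · rw [update_of_ne hji] at hj; exact ⟨j, hj⟩

theorem Low.FU {g : (Fin n → ℕ) → ℤ} {K : ℕ} (hg : Anti g) (hl : Low g K) (μ : Multiset ℕ)
    (hμ : ∀ r ∈ μ, 0 < r) : Low (FU g μ) (K - μ.sum) := by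
  induction μ using Multiset.induction_on with
  | empty => simpa using hl
  | cons r μ ih =>
    rw [FU_cons, Multiset.sum_cons]
    have := Low.U (hg.FU μ) (ih fun x hx => hμ x (Multiset.mem_cons_of_mem hx))
      (hμ r (Multiset.mem_cons_self _ _))
    rwa [show K - μ.sum - r = K - (r + μ.sum) by omega] at this

theorem heis {g : (Fin n → ℕ) → ℤ} {K : ℕ} (hg : Anti g) (hl : Low g K) {r s : ℕ} (hs : s ≤ K)
    (β : Fin n → ℕ) :
    D r (U s g) β = U s (D r g) β + if r = s then (r : ℤ) * g β else 0 := by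
  by_cases hinj : Injective β
  swap
  · rw [((hg.U s).D r).zero hinj, ((hg.D r).U s).zero hinj, hg.zero hinj]; simp
  have e1 : D r (U s g) β = ∑ i, ∑ j, if s ≤ update β i (β i + r) j then
      g (update (update β i (β i + r)) j (update β i (β i + r) j - s)) else 0 := rfl
  have e2 : U s (D r g) β = ∑ i, ∑ j, if s ≤ β j then
      g (update (update β j (β j - s)) i (update β j (β j - s) i + r)) else 0 := by
    rw [sum_comm]
    unfold MP_f0a921_al.U MP_f0a921_al.D
    refine sum_congr rfl fun j _ => ?_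
    split_ifs <;> simp
  have e3 : D r (U s g) β - U s (D r g) β =
      ∑ i, if β i < s ∧ s ≤ β i + r then g (update β i (β i + r - s)) else 0 := by
    rw [e1, e2, ← sum_sub_distrib]
    refine sum_congr rfl fun i _ => ?_
    rw [← sum_sub_distrib, sum_eq_single i]
    · simp only [update_self, update_idem]
      by_cases h1 : s ≤ β i
      · rw [if_pos (by omega), if_pos h1, if_neg (by omega), show β i + r - s = β i - s + r by omega]
        simp
      · rw [if_neg h1]
        by_cases h2 : s ≤ β i + r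
        · rw [if_pos h2, if_pos ⟨by omega, h2⟩]; simp
        · rw [if_neg h2, if_neg (by omega)]; simp
    · intro j _ hji
      have hij : i ≠ j := fun h => hji h.symm
      simp only [update_of_ne hij, update_of_ne hji]
      rw [update_comm hij]
      simp
    · simp
  have e4 : (∑ i, if β i < s ∧ s ≤ β i + r then g (update β i (β i + r - s)) else 0) =
      if r = s then (r : ℤ) * g β else 0 := by
    split_ifs with hrs
    · subst hrs
      by_cases h0 : g β = 0
      · rw [h0, mul_zero]
        refine sum_eq_zero fun i _ => ?_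
        simp [h0]
      · have : ∀ i, (if β i < r ∧ r ≤ β i + r then g (update β i (β i + r - r)) else 0) =
            if β i < r then g β else 0 := by
          intro i; simp
        simp only [this]
        rw [← sum_filter, sum_const, nsmul_eq_mul]
        congr 2
        rw [← card_image_of_injective _ hinj]
        conv_rhs => rw [← card_range r]
        congr 1
        ext t
        simp only [mem_image, mem_filter, mem_univ, true_and, mem_range]
        constructor
        · rintro ⟨i, hi, rfl⟩; exact hi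
        · intro ht
          obtain ⟨i, hi⟩ := hl β h0 t (by omega)
          exact ⟨i, by omega, hi⟩
    · refine sum_eq_zero fun i _ => ?_
      split_ifs with h
      · by_contra hne
        obtain ⟨j, hj⟩ := hl _ hne (β i) (by omega)
        by_cases hji : j = i
        · subst hji; rw [update_self] at hj; omega
        · rw [update_of_ne hji] at hj; exact hji (hinj hj)
      · rfl
  rw [← e4, ← e3]; ring

theorem U_smul (r : ℕ) (c : ℤ) (g : (Fin n → ℕ) → ℤ) (β : Fin n → ℕ) :
    U r (fun x => c * g x) β = c * U r g β := by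
  unfold U; rw [mul_sum]; refine sum_congr rfl fun i _ => ?_; simp

theorem D_FU {g : (Fin n → ℕ) → ℤ} {K : ℕ} (hg : Anti g) (hl : Low g K) {r : ℕ}
    (h0 : ∀ β, D r g β = 0) (ν : Multiset ℕ) (hν : ∀ x ∈ ν, 0 < x) (hK : ν.sum ≤ K)
    (β : Fin n → ℕ) :
    D r (FU g ν) β = (r * ν.count r : ℤ) * FU g (ν.erase r) β := by
  induction ν using Multiset.induction_on generalizing β with
  | empty => simp [h0]
  | cons s ν ih =>
    have hν' : ∀ x ∈ ν, 0 < x := fun x hx => hν x (Multiset.mem_cons_of_mem hx)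
    rw [Multiset.sum_cons] at hK
    rw [FU_cons, heis (hg.FU ν) (hl.FU hg ν hν') (by omega)]
    have : D r (FU g ν) = fun x => (r * ν.count r : ℤ) * FU g (ν.erase r) x :=
      funext fun x => ih hν' (by omega) x
    rw [this, U_smul, ← FU_cons]
    by_cases hrs : r = s
    · subst hrs
      rw [if_pos rfl, Multiset.erase_cons_head, Multiset.count_cons_self]
      by_cases hm : r ∈ ν
      · rw [Multiset.cons_erase hm]; push_cast; ring
      · rw [Multiset.count_eq_zero_of_notMem hm]; simp
    · rw [if_neg hrs, Multiset.count_cons_of_ne hrs,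
        Multiset.erase_cons_tail _ (fun h => hrs h.symm), add_zero]

theorem sum_update (β : Fin n → ℕ) (i : Fin n) (v : ℕ) :
    ∑ j, update β i v j + β i = ∑ j, β j + v := by
  rw [sum_update_of_mem (mem_univ i), ← add_sum_erase univ β (mem_univ i), sdiff_singleton_eq_erase]
  ring

theorem adj (r N : ℕ) (g h : (Fin n → ℕ) → ℤ) :
    ∑ β ∈ Finset.Nat.antidiagonalTuple n (N + r), U r g β * h β =
      ∑ β ∈ Finset.Nat.antidiagonalTuple n N, g β * D r h β := by
  unfold U D
  simp only [sum_mul, mul_sum]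
  rw [sum_comm, sum_comm (s := Finset.Nat.antidiagonalTuple n N)]
  refine sum_congr rfl fun i _ => ?_
  simp only [ite_mul, zero_mul]
  rw [← sum_filter]
  refine sum_nbij' (fun β => update β i (β i - r)) (fun β => update β i (β i + r)) ?_ ?_ ?_ ?_ ?_
  · intro β hβ
    simp only [mem_filter, Finset.Nat.mem_antidiagonalTuple] at hβ ⊢
    have := sum_update β i (β i - r)
    omega
  · intro β hβ
    simp only [mem_filter, Finset.Nat.mem_antidiagonalTuple, update_self] at hβ ⊢
    have := sum_update β i (β i + r)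
    omega
  · intro β hβ
    simp only [mem_filter] at hβ
    simp only [update_self, update_idem]
    rw [Nat.sub_add_cancel hβ.2, update_eq_self]
  · intro β hβ
    simp
  · intro β hβ
    simp only [mem_filter] at hβ
    simp only [update_self, update_idem]
    rw [Nat.sub_add_cancel hβ.2, update_eq_self]

/-- the order of the centraliser -/
def zz (μ : Multiset ℕ) : ℕ := μ.prod * ∏ r ∈ μ.toFinset, (μ.count r).factorial

@[simp] theorem zz_zero : zz 0 = 1 := by simp [zz]

theorem zz_cons (r : ℕ) (μ : Multiset ℕ) : zz (r ::ₘ μ) = r * (μ.count r + 1) * zz μ := by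
  unfold zz
  have h1 : ∏ x ∈ μ.toFinset, (μ.count x).factorial =
      ∏ x ∈ (r ::ₘ μ).toFinset, (μ.count x).factorial := by
    apply prod_subset
    · intro x hx; simp only [Multiset.mem_toFinset] at hx ⊢; exact Multiset.mem_cons_of_mem hx
    · intro x _ hx
      rw [Multiset.mem_toFinset] at hx
      rw [Multiset.count_eq_zero_of_notMem hx]; rfl
  have hr : r ∈ (r ::ₘ μ).toFinset := by simp
  rw [h1, ← mul_prod_erase _ _ hr, ← mul_prod_erase _ _ hr, Multiset.prod_cons,
    Multiset.count_cons_self, Nat.factorial_succ]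
  have : ∏ x ∈ (r ::ₘ μ).toFinset.erase r, ((r ::ₘ μ).count x).factorial =
      ∏ x ∈ (r ::ₘ μ).toFinset.erase r, (μ.count x).factorial := by
    refine prod_congr rfl fun x hx => ?_
    rw [Multiset.count_cons_of_ne (ne_of_mem_erase hx)]
  rw [this]; ring

theorem orth_gen {g : (Fin n → ℕ) → ℤ} {K C : ℕ} (hg : Anti g) (hl : Low g K)
    (h0 : ∀ r, 0 < r → ∀ β, D r g β = 0) (μ ν : Multiset ℕ) (hμ : ∀ x ∈ μ, 0 < x)
    (hν : ∀ x ∈ ν, 0 < x) (hs : μ.sum = ν.sum) (hK : ν.sum ≤ K) :
    ∑ β ∈ Finset.Nat.antidiagonalTuple n (C + μ.sum), FU g μ β * FU g ν β =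
      if μ = ν then (zz μ : ℤ) * ∑ β ∈ Finset.Nat.antidiagonalTuple n C, g β * g β else 0 := by
  induction μ using Multiset.induction_on generalizing ν with
  | empty =>
    have : ν = 0 := by
      by_contra hne
      obtain ⟨x, hx⟩ := Multiset.exists_mem_of_ne_zero hne
      have := Multiset.single_le_sum (fun _ _ => Nat.zero_le _) x hx
      have := hν x hx
      simp at hs; omega
    subst this; simp
  | cons r μ ih =>
    have hr := hμ r (Multiset.mem_cons_self _ _)
    have hμ' : ∀ x ∈ μ, 0 < x := fun x hx => hμ x (Multiset.mem_cons_of_mem hx)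
    rw [Multiset.sum_cons] at hs ⊢
    rw [FU_cons, show C + (r + μ.sum) = C + μ.sum + r by ring, adj]
    simp only [D_FU hg hl (h0 r hr) ν hν hK]
    by_cases hm : r ∈ ν
    · obtain ⟨ν', rfl⟩ := Multiset.exists_cons_of_mem hm
      rw [Multiset.sum_cons] at hs hK
      have := ih ν' hμ' (fun x hx => hν x (Multiset.mem_cons_of_mem hx)) (by omega) (by omega)
      simp only [Multiset.erase_cons_head, Multiset.count_cons_self, Multiset.cons_inj_right]
      rw [show (∑ β ∈ Finset.Nat.antidiagonalTuple n (C + μ.sum),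
        FU g μ β * ((r * ((ν'.count r + 1 : ℕ) : ℤ)) * FU g ν' β)) =
        (r * ((ν'.count r + 1 : ℕ) : ℤ)) * ∑ β ∈ Finset.Nat.antidiagonalTuple n (C + μ.sum),
        FU g μ β * FU g ν' β by rw [mul_sum]; exact sum_congr rfl fun _ _ => by ring, this]
      split_ifs with h
      · subst h; rw [zz_cons]; push_cast; ring
      · simp
    · rw [Multiset.count_eq_zero_of_notMem hm, if_neg]
      · simp
      · rintro rfl; exact hm (Multiset.mem_cons_self _ _)

/-- sign of the sorting permutation (zero for a non-injective vector) -/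
def sg (β : Fin n → ℕ) : ℤ := ∏ i, ∏ j ∈ Ioi i, Int.sign ((β j : ℤ) - β i)

theorem sg_anti : Anti (sg : (Fin n → ℕ) → ℤ) := by
  intro τ β
  have := Equiv.Perm.prod_Ioi_comp_eq_sign_mul_prod (R := ℤ) τ
    (f := fun i j => Int.sign ((β j : ℤ) - β i)) (fun i j => by
      rw [← Int.sign_neg]; congr 1; ring)
  simpa [sg] using this

theorem sg_mono {β : Fin n → ℕ} (h : StrictMono β) : sg β = 1 := by
  unfold sg
  refine prod_eq_one fun i _ => prod_eq_one fun j hj => ?_
  have := h (mem_Ioi.mp hj)
  exact Int.sign_eq_one_of_pos (by omega)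

/-- antisymmetric function attached to a function of finite sets -/
def toV (h : Finset ℕ → ℤ) (β : Fin n → ℕ) : ℤ := sg β * h (image β univ)

theorem image_comp_perm (β : Fin n → ℕ) (τ : Equiv.Perm (Fin n)) :
    image (β ∘ τ) univ = image β univ := by
  rw [← image_image, image_univ_equiv]

theorem toV_anti (h : Finset ℕ → ℤ) : Anti (toV h : (Fin n → ℕ) → ℤ) := by
  intro τ β
  unfold toV
  rw [sg_anti, image_comp_perm, mul_assoc]

/-- the empty partition -/
def vac (X : Finset ℕ) : ℤ := if X = range X.card then 1 else 0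

theorem toV_vac_ne {β : Fin n → ℕ} (h : toV vac β ≠ 0) : image β univ = range n := by
  have hinj := (toV_anti vac).inj h
  have := right_ne_zero_of_mul h
  unfold vac at this
  split_ifs at this with h1
  · rwa [card_image_of_injective _ hinj, card_univ, Fintype.card_fin] at h1
  · exact absurd rfl this

theorem vac_low : Low (toV vac : (Fin n → ℕ) → ℤ) n := by
  intro β h t ht
  have : t ∈ image β univ := by rw [toV_vac_ne h]; exact mem_range.mpr ht
  obtain ⟨i, -, hi⟩ := mem_image.mp this
  exact ⟨i, hi⟩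

theorem D_vac {r : ℕ} (hr : 0 < r) (β : Fin n → ℕ) : D r (toV vac) β = 0 := by
  by_cases hinj : Injective β
  swap
  · exact ((toV_anti vac).D r).zero hinj
  refine sum_eq_zero fun i _ => ?_
  by_contra hne
  have h1 := toV_vac_ne hne
  have h2 : β i + r ∈ range n := by
    rw [← h1]; exact mem_image.mpr ⟨i, mem_univ _, by simp⟩
  obtain ⟨j, hj⟩ := vac_low _ hne (β i) (by have := mem_range.mp h2; omega)
  by_cases hji : j = i
  · subst hji; rw [update_self] at hj; omega
  · rw [update_of_ne hji] at hj; exact hji (hinj hj)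

theorem image_val : image (Fin.val : Fin n → ℕ) univ = range n := by
  ext t; simp only [mem_image, mem_univ, true_and, mem_range]
  exact ⟨fun ⟨i, hi⟩ => hi ▸ i.2, fun h => ⟨⟨t, h⟩, rfl⟩⟩

theorem toV_vac_val : toV vac (Fin.val : Fin n → ℕ) = 1 := by
  unfold toV vac
  rw [sg_mono Fin.val_strictMono, image_val]; simp

theorem toV_vac_eq (β : Fin n → ℕ) : toV vac β =
    ∑ τ : Equiv.Perm (Fin n), if β = Fin.val ∘ τ then (Equiv.Perm.sign τ : ℤ) else 0 := by
  by_cases h : ∃ τ : Equiv.Perm (Fin n), β = Fin.val ∘ τ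
  · obtain ⟨τ, rfl⟩ := h
    rw [toV_anti, toV_vac_val, sum_eq_single τ]
    · simp
    · intro τ' _ hne
      rw [if_neg]
      intro h
      apply hne
      ext i
      exact (congrFun h i).symm
    · simp
  · rw [sum_eq_zero fun τ _ => if_neg fun h' => h ⟨τ, h'⟩]
    by_contra hne
    have hinj := (toV_anti vac).inj hne
    have h1 := toV_vac_ne hne
    have h2 : ∀ i, β i < n := fun i => by
      rw [← mem_range, ← h1]; exact mem_image_of_mem _ (mem_univ i)
    let φ : Fin n → Fin n := fun i => ⟨β i, h2 i⟩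
    have hφ : Injective φ := fun i j hij => hinj (congrArg Fin.val hij)
    exact h ⟨Equiv.ofBijective φ hφ.bijective_of_finite, rfl⟩

theorem sum_val : ∑ i : Fin n, (i : ℕ) = n.choose 2 := by
  rw [Fin.sum_univ_eq_sum_range (fun i => i), sum_range_id, Nat.choose_two_right]

theorem vac_sq : ∑ β ∈ Finset.Nat.antidiagonalTuple n (n.choose 2), toV vac β * toV vac β =
    n.factorial := by
  conv_lhs => enter [2, β, 1]; rw [toV_vac_eq]
  simp only [sum_mul, ite_mul, zero_mul]
  rw [sum_comm]
  have : ∀ τ : Equiv.Perm (Fin n), (∑ β ∈ Finset.Nat.antidiagonalTuple n (n.choose 2),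
      if β = Fin.val ∘ τ then (Equiv.Perm.sign τ : ℤ) * toV vac β else 0) = 1 := by
    intro τ
    rw [sum_ite_eq', if_pos, toV_anti, toV_vac_val, mul_one, ← Units.val_mul, Int.units_mul_self]
    · rfl
    · rw [Finset.Nat.mem_antidiagonalTuple, ← sum_val]
      exact Equiv.sum_comp τ Fin.val
  simp [this, Fintype.card_perm]

/-- Frobenius coefficient -/
def Psi (n : ℕ) (μ : Multiset ℕ) : (Fin n → ℕ) → ℤ := FU (toV vac) μ

theorem Psi_anti (μ : Multiset ℕ) : Anti (Psi n μ) := (toV_anti vac).FU μ

theorem orth (μ ν : Multiset ℕ) (hμ : ∀ x ∈ μ, 0 < x) (hν : ∀ x ∈ ν, 0 < x)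
    (hs : μ.sum = ν.sum) (hK : ν.sum ≤ n) :
    ∑ β ∈ Finset.Nat.antidiagonalTuple n (n.choose 2 + μ.sum), Psi n μ β * Psi n ν β =
      if μ = ν then (zz μ : ℤ) * n.factorial else 0 := by
  rw [← vac_sq]
  exact orth_gen (toV_anti vac) vac_low (fun r hr β => D_vac hr β) μ ν hμ hν hs hK

end Pool.Agent.MP_f0a921_al
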